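import Mathlib

set_option autoImplicit false
set_option linter.unusedSimpArgs false

/-!
# A PI subalgebra of a restricted enveloping algebra with `n(R) = 2` in characteristic `3`

Let `L = gl_3(F_3)` with the `p`-mapping `x ↦ x ^ 3`. In `u(L)` let `X`, `Y`, `Z` be the images of the
operators of multiplication by t and minus the derivative on `F_3[t] / (t ^ 3)` and of the identity. They
satisfy `X Y - Y X = Z`, `Z` commutes with `X` and `Y`, `Z ^ 3 = Z`, `X ^ 3 = Y ^ 3 = 0`. Hence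
`a = (Z ^ 2 + Z) Y ^ 2 X ^ 2` is an idempotent and `a`, `- a Y`, `X a`, `- X a Y` are `2 × 2` matrix
units. The subalgebra `R` spanned by them is isomorphic to `M_2(F_3)`, since it acts faithfully on
`F_3[t] / (t ^ 3)`. So it satisfies `S_4` but no power of `S_2`, and `2` is not a power of `3`.
-/

namespace Pool.Agent.T6.H22.RestEnv

open Equiv

/-- The standard polynomial of degree four, written out. -/
def s4 {R : Type*} [Add R] [Mul R] [Neg R] (r : Fin 4 → R) : R :=
  r 0 * (r 1 * (r 2 * r 3)) + -(r 0 * (r 1 * (r 3 * r 2))) +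
        (-(r 0 * (r 2 * (r 1 * r 3))) + r 0 * (r 2 * (r 3 * r 1)) +
          (-(r 0 * (r 3 * (r 2 * r 1))) + r 0 * (r 3 * (r 1 * r 2)))) +
      (-(r 1 * (r 0 * (r 2 * r 3))) + r 1 * (r 0 * (r 3 * r 2)) +
          (r 1 * (r 2 * (r 0 * r 3)) + -(r 1 * (r 2 * (r 3 * r 0))) +
            (r 1 * (r 3 * (r 2 * r 0)) + -(r 1 * (r 3 * (r 0 * r 2))))) +
        (-(r 2 * (r 1 * (r 0 * r 3))) + r 2 * (r 1 * (r 3 * r 0)) +
            (r 2 * (r 0 * (r 1 * r 3)) + -(r 2 * (r 0 * (r 3 * r 1))) +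
              (r 2 * (r 3 * (r 0 * r 1)) + -(r 2 * (r 3 * (r 1 * r 0))))) +
          (-(r 3 * (r 1 * (r 2 * r 0))) + r 3 * (r 1 * (r 0 * r 2)) +
            (r 3 * (r 2 * (r 1 * r 0)) + -(r 3 * (r 2 * (r 0 * r 1))) +
              (r 3 * (r 0 * (r 2 * r 1)) + -(r 3 * (r 0 * (r 1 * r 2))))))))

theorem std4 {R : Type*} [Ring R] (r : Fin 4 → R) :
    (∑ σ : Equiv.Perm (Fin 4), ((Equiv.Perm.sign σ : ℤˣ) : ℤ) • (List.ofFn fun i => r (σ i)).prod)
      = s4 r := by
  rw [Finset.univ_perm_fin_succ, Finset.sum_map, ← Finset.univ_product_univ, Finset.sum_product]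
  simp [Finset.univ_perm_fin_succ, ← Finset.univ_product_univ, Finset.sum_product,
    List.ofFn_succ, Fin.sum_univ_succ]
  have e1 : (Perm.decomposeFin.symm ((0 : Fin 3), swap (0 : Fin 2) 1)) 2 = 1 := by decide
  have e2 : (Perm.decomposeFin.symm ((1 : Fin 3), swap (0 : Fin 2) 1)) 2 = 0 := by decide
  have e3 : (Perm.decomposeFin.symm ((2 : Fin 3), swap (0 : Fin 2) 1)) 2 = 1 := by decide
  have e4 : (swap (0 : Fin 3) 1) 2 = 2 := by decide
  have e5 : (swap (0 : Fin 3) 2) 1 = 1 := by decide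
  have e6 : (swap (0 : Fin 4) 1) 2 = 2 := by decide
  have e7 : (swap (0 : Fin 4) 1) 3 = 3 := by decide
  have e8 : (swap (0 : Fin 4) 2) 1 = 1 := by decide
  have e9 : (swap (0 : Fin 4) 2) 3 = 3 := by decide
  have e10 : (swap (0 : Fin 4) 3) 1 = 1 := by decide
  have e11 : (swap (0 : Fin 4) 3) 2 = 2 := by decide
  have f1 : (2 : Fin 3).succ = 3 := by decide
  have f2 : (1 : Fin 3).succ = 2 := by decide
  have f3 : (0 : Fin 3).succ = 1 := by decide
  simp only [e1, e2, e3, e4, e5, e6, e7, e8, e9, e10, e11, f1, f2, f3, swap_apply_right]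
  rfl

theorem s4_mat (M : Fin 4 → Matrix (Fin 2) (Fin 2) (ZMod 3)) : s4 M = 0 := by
  unfold s4
  ext i j
  fin_cases i <;> fin_cases j <;>
    simp [Matrix.mul_apply, Fin.sum_univ_two] <;> ring

theorem std2 {R : Type*} [Ring R] (r : Fin 2 → R) :
    (∑ σ : Equiv.Perm (Fin 2), ((Equiv.Perm.sign σ : ℤˣ) : ℤ) • (List.ofFn fun i => r (σ i)).prod)
      = r 0 * r 1 - r 1 * r 0 := by
  rw [Finset.univ_perm_fin_succ, Finset.sum_map, ← Finset.univ_product_univ, Finset.sum_product]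
  simp [List.ofFn_succ, Fin.sum_univ_succ]
  rw [sub_eq_add_neg]

/-- Computations with a Heisenberg triple. -/
theorem heis {R : Type*} [Ring R] (h3 : ∀ r : R, r + r + r = 0) (x y z : R)
    (hxy : x * y = y * x + z) (hxz : x * z = z * x) (hyz : y * z = z * y)
    (hz : z * (z * z) = z) (hx : x * (x * x) = 0) (hy : y * (y * y) = 0) :
    ∃ a : R, a = (z * z + z) * (y * y * (x * x)) ∧ a * a = a ∧ a * (x * a) = 0 ∧
      a * (y * a) = 0 ∧ a * (y * (x * a)) = -a := by
  have hxy' : ∀ w, x * (y * w) = y * (x * w) + z * w := fun w => by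
    rw [← mul_assoc, hxy, add_mul, mul_assoc]
  have hxz' : ∀ w, x * (z * w) = z * (x * w) := fun w => by
    rw [← mul_assoc, hxz, mul_assoc]
  have hyz' : ∀ w, y * (z * w) = z * (y * w) := fun w => by
    rw [← mul_assoc, hyz, mul_assoc]
  have hz' : ∀ w, z * (z * (z * w)) = z * w := fun w => by
    have := congrArg (· * w) hz
    simpa only [mul_assoc] using this
  have hx' : ∀ w, x * (x * (x * w)) = 0 := fun w => by
    have := congrArg (· * w) hx
    simpa only [mul_assoc, zero_mul] using this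
  have hy' : ∀ w, y * (y * (y * w)) = 0 := fun w => by
    have := congrArg (· * w) hy
    simpa only [mul_assoc, zero_mul] using this
  refine ⟨_, rfl, ?_, ?_, ?_, ?_⟩
  · simp only [mul_add, add_mul, mul_assoc, hxy, hxz, hyz, hz, hx, hy, hxy', hxz', hyz', hz',
      hx', hy', mul_zero, zero_mul, add_zero, zero_add]
    have k1 := h3 (z * (z * (y * (y * (x * x)))))
    have k2 := h3 (z * (y * (y * (x * x))))
    generalize z * (z * (y * (y * (x * x)))) = P at *
    generalize z * (y * (y * (x * x))) = Q at *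
    calc P + P + (Q + Q) + (Q + Q + (P + P)) = (P + P + P) + (Q + Q + Q) + (P + Q) := by abel
      _ = P + Q := by rw [k1, k2]; simp
  · simp only [mul_add, add_mul, mul_assoc, hxy, hxz, hyz, hz, hx, hy, hxy', hxz', hyz', hz',
      hx', hy', mul_zero, zero_mul, add_zero, zero_add]
  · simp only [mul_add, add_mul, mul_assoc, hxy, hxz, hyz, hz, hx, hy, hxy', hxz', hyz', hz',
      hx', hy', mul_zero, zero_mul, add_zero, zero_add]
  · simp only [mul_add, add_mul, mul_assoc, hxy, hxz, hyz, hz, hx, hy, hxy', hxz', hyz', hz',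
      hx', hy', mul_zero, zero_mul, add_zero, zero_add]
    have k1 := h3 (z * (z * (y * (y * (x * x)))))
    have k2 := h3 (z * (y * (y * (x * x))))
    generalize z * (z * (y * (y * (x * x)))) = P at *
    generalize z * (y * (y * (x * x))) = Q at *
    calc Q + Q + (P + P) + (Q + Q + (P + P)) + (P + P + (Q + Q) + (P + P + (Q + Q)))
        = (P + P + P) + (P + P + P) + (P + P + P) + ((Q + Q + Q) + (Q + Q + Q) + (Q + Q + Q))
          + -(P + Q) := by abel
      _ = -(P + Q) := by rw [k1, k2]; simp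

/-- The four matrix units. -/
def phi {A : Type*} [Ring A] [Algebra (ZMod 3) A] (a b c d : A)
    (M : Matrix (Fin 2) (Fin 2) (ZMod 3)) : A :=
  M 0 0 • a + M 0 1 • b + M 1 0 • c + M 1 1 • d

/-- The homomorphism given by matrix units. -/
def phiHom {A : Type*} [Ring A] [Algebra (ZMod 3) A] (a b c d : A)
    (haa : a * a = a) (hab : a * b = b) (hac : a * c = 0) (had : a * d = 0)
    (hba : b * a = 0) (hbb : b * b = 0) (hbc : b * c = a) (hbd : b * d = b)
    (hca : c * a = c) (hcb : c * b = d) (hcc : c * c = 0) (hcd : c * d = 0)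
    (hda : d * a = 0) (hdb : d * b = 0) (hdc : d * c = c) (hdd : d * d = d) :
    Matrix (Fin 2) (Fin 2) (ZMod 3) →ₙₐ[ZMod 3] A where
  toFun := phi a b c d
  map_smul' := by
    intro r M
    simp [phi, smul_smul, smul_add]
  map_zero' := by simp [phi]
  map_add' := by
    intro M N
    simp only [phi, Matrix.add_apply, add_smul]
    abel
  map_mul' := by
    intro M N
    simp only [phi, Matrix.mul_apply, Fin.sum_univ_two, add_smul, mul_add, add_mul,
      smul_mul_assoc, mul_smul_comm, haa, hab, hac, had, hba, hbb, hbc, hbd, hca, hcb, hcc, hcd,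
      hda, hdb, hdc, hdd, smul_zero, add_zero, zero_add]
    module


/-- Characteristic three, in additive form. -/
theorem three_zero {A : Type*} [Ring A] [Algebra (ZMod 3) A] (r : A) : r + r + r = 0 := by
  have h : (3 : ZMod 3) • r = 0 := by
    have : (3 : ZMod 3) = 0 := by decide
    rw [this, zero_smul]
  have h2 : (3 : ZMod 3) • r = r + r + r := by
    have : (3 : ZMod 3) = 1 + 1 + 1 := by decide
    rw [this, add_smul, add_smul, one_smul]
  rw [← h2, h]

/-- The cube of a sum in characteristic three. -/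
theorem cube_add {A : Type*} [Ring A] (h3 : ∀ r : A, r + r + r = 0) (x y : A) :
    (x + y) ^ 3 = x ^ 3 + y ^ 3 + (x * (x * y - y * x) - (x * y - y * x) * x)
      + (y * (y * x - x * y) - (y * x - x * y) * y) := by
  have k1 := h3 (x * (y * x))
  have k2 := h3 (y * (x * y))
  simp only [pow_succ, pow_zero, one_mul, mul_add, add_mul, mul_sub, sub_mul, mul_assoc]
  generalize x * (y * x) = P at *
  generalize y * (x * y) = Q at *
  have : ∀ u v w t u' v' : A, u + u' + (v + w + t + v') = 0 → True := fun _ _ _ _ _ _ _ => trivial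
  rw [← sub_eq_zero]
  trans (P + P + P) + (Q + Q + Q)
  · abel
  · rw [k1, k2, add_zero]

attribute [local instance 100] LieRing.ofAssociativeRing

/-- The Lie algebra `gl_3(F_3)`. -/
abbrev G := Matrix (Fin 3) (Fin 3) (ZMod 3)

theorem f_smul (a : ZMod 3) (x : G) : (fun x : G => x ^ 3) (a • x) = a ^ 3 • (fun x : G => x ^ 3) x := by
  simp [smul_pow]

theorem f_ad (x y : G) : (LieAlgebra.ad (ZMod 3) G x ^ 3) y = ⁅x ^ 3, y⁆ := by
  have k1 := three_zero (x * (x * (y * x)))
  have k2 := three_zero (x * (y * (x * x)))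
  simp only [pow_succ, pow_zero, one_mul, Module.End.mul_apply, LieAlgebra.ad_apply, Ring.lie_def,
    mul_sub, sub_mul, mul_assoc]
  generalize x * (x * (y * x)) = P at *
  generalize x * (y * (x * x)) = Q at *
  rw [← sub_eq_zero]
  trans -(P + P + P) + (Q + Q + Q)
  · abel
  · rw [k1, k2]; simp

theorem f_add (x y : G) :
    UniversalEnvelopingAlgebra.ι (ZMod 3) ((x + y) ^ 3) - UniversalEnvelopingAlgebra.ι (ZMod 3) (x ^ 3)
        - UniversalEnvelopingAlgebra.ι (ZMod 3) (y ^ 3)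
      = (UniversalEnvelopingAlgebra.ι (ZMod 3) x + UniversalEnvelopingAlgebra.ι (ZMod 3) y) ^ 3
        - UniversalEnvelopingAlgebra.ι (ZMod 3) x ^ 3 - UniversalEnvelopingAlgebra.ι (ZMod 3) y ^ 3 := by
  rw [cube_add three_zero x y, cube_add three_zero]
  have e1 : (x * (x * y - y * x) - (x * y - y * x) * x) = ⁅x, ⁅x, y⁆⁆ := rfl
  have e2 : (y * (y * x - x * y) - (y * x - x * y) * y) = ⁅y, ⁅y, x⁆⁆ := rfl
  rw [e1, e2]
  simp only [map_add, LieHom.map_lie]
  simp only [Ring.lie_def]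
  abel


/-- The relations of the restricted enveloping algebra. -/
def rel (a b : UniversalEnvelopingAlgebra (ZMod 3) G) : Prop :=
  ∃ x : G, a = UniversalEnvelopingAlgebra.ι (ZMod 3) x ^ 3 ∧
    b = UniversalEnvelopingAlgebra.ι (ZMod 3) ((fun x : G => x ^ 3) x)

/-- The restricted enveloping algebra of `gl_3(F_3)`. -/
abbrev u := RingQuot (fun a b : UniversalEnvelopingAlgebra (ZMod 3) G =>
  ∃ x : G, a = UniversalEnvelopingAlgebra.ι (ZMod 3) x ^ 3 ∧
    b = UniversalEnvelopingAlgebra.ι (ZMod 3) ((fun x : G => x ^ 3) x))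

/-- The canonical map. -/
noncomputable def j (x : G) : u :=
  RingQuot.mkAlgHom (ZMod 3) _ (UniversalEnvelopingAlgebra.ι (ZMod 3) x)

theorem j_add (x y : G) : j (x + y) = j x + j y := by simp [j]

theorem j_zero : j 0 = 0 := by simp [j]

theorem j_lie (x y : G) : j (x * y - y * x) = j x * j y - j y * j x := by
  have : x * y - y * x = ⁅x, y⁆ := rfl
  rw [this, j, LieHom.map_lie, Ring.lie_def, map_sub, map_mul, map_mul]
  rfl

theorem j_cube (x : G) : j x * (j x * j x) = j (x ^ 3) := by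
  have h := RingQuot.mkAlgHom_rel (ZMod 3) (s := fun a b : UniversalEnvelopingAlgebra (ZMod 3) G =>
    ∃ x : G, a = UniversalEnvelopingAlgebra.ι (ZMod 3) x ^ 3 ∧
    b = UniversalEnvelopingAlgebra.ι (ZMod 3) ((fun x : G => x ^ 3) x)) ⟨x, rfl, rfl⟩
  rw [map_pow] at h
  rw [j, j, ← h, pow_succ, pow_succ, pow_one, mul_assoc]

/-- The representation on `F_3 ^ 3`. -/
noncomputable def rep : u →ₐ[ZMod 3] G :=
  RingQuot.liftAlgHom (ZMod 3) ⟨UniversalEnvelopingAlgebra.lift (ZMod 3) LieHom.id, by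
    rintro a b ⟨x, rfl, rfl⟩
    rw [map_pow, UniversalEnvelopingAlgebra.lift_ι_apply, UniversalEnvelopingAlgebra.lift_ι_apply]
    rfl⟩

theorem rep_j (x : G) : rep (j x) = x := by
  rw [rep, j, RingQuot.liftAlgHom_mkAlgHom_apply]
  exact UniversalEnvelopingAlgebra.lift_ι_apply _ _ _

/-- Multiplication by t. -/
def x0 : G := !![0, 0, 0; 1, 0, 0; 0, 1, 0]

/-- Minus the derivative. -/
def y0 : G := !![0, -1, 0; 0, 0, 1; 0, 0, 0]

theorem exists_units : ∃ a b c d : u, a ≠ 0 ∧ a * a = a ∧ a * b = b ∧ a * c = 0 ∧ a * d = 0 ∧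
    b * a = 0 ∧ b * b = 0 ∧ b * c = a ∧ b * d = b ∧ c * a = c ∧ c * b = d ∧ c * c = 0 ∧
    c * d = 0 ∧ d * a = 0 ∧ d * b = 0 ∧ d * c = c ∧ d * d = d := by
  have hxy : j x0 * j y0 = j y0 * j x0 + j 1 := by
    have : x0 * y0 - y0 * x0 = 1 := by decide
    rw [← this, j_lie]
    abel
  have hxz : j x0 * j 1 = j 1 * j x0 := by
    have : x0 * 1 - 1 * x0 = 0 := by simp
    rw [← sub_eq_zero, ← j_lie, this, j_zero]
  have hyz : j y0 * j 1 = j 1 * j y0 := by
    have : y0 * 1 - 1 * y0 = 0 := by simp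
    rw [← sub_eq_zero, ← j_lie, this, j_zero]
  have hz : j 1 * (j 1 * j 1) = j 1 := by rw [j_cube, one_pow]
  have hx : j x0 * (j x0 * j x0) = 0 := by
    have : x0 ^ 3 = 0 := by decide
    rw [j_cube, this, j_zero]
  have hy : j y0 * (j y0 * j y0) = 0 := by
    have : y0 ^ 3 = 0 := by decide
    rw [j_cube, this, j_zero]
  obtain ⟨a, ha, haa, hxa, hya, hyx⟩ := heis (R := u) three_zero (j x0) (j y0) (j 1) hxy hxz hyz
    hz hx hy
  have ha0 : a ≠ 0 := by
    intro h
    have h1 : rep a = 0 := by rw [h, map_zero]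
    rw [ha] at h1
    simp only [map_mul, map_add, rep_j] at h1
    revert h1
    decide
  have e1 : ∀ w, a * (a * w) = a * w := fun w => by rw [← mul_assoc, haa]
  have e2 : ∀ w, a * (j x0 * (a * w)) = 0 := fun w => by
    rw [← mul_assoc (j x0), ← mul_assoc a, hxa, zero_mul]
  have e3 : ∀ w, a * (j y0 * (a * w)) = 0 := fun w => by
    rw [← mul_assoc (j y0), ← mul_assoc a, hya, zero_mul]
  have e4 : ∀ w, a * (j y0 * (j x0 * (a * w))) = -(a * w) := fun w => by
    rw [← mul_assoc (j x0), ← mul_assoc (j y0), ← mul_assoc a, hyx, neg_mul]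
  refine ⟨a, -(a * j y0), j x0 * a, -(j x0 * (a * j y0)), ha0, haa, ?_, ?_, ?_, ?_, ?_, ?_, ?_, ?_,
    ?_, ?_, ?_, ?_, ?_, ?_, ?_⟩ <;>
  simp only [mul_neg, neg_mul, mul_assoc, e1, e2, e3, e4, haa, hxa, hya, hyx, neg_zero, mul_zero,
    neg_neg]


theorem s4_map {A B : Type*} [Ring A] [Ring B] [Algebra (ZMod 3) A] [Algebra (ZMod 3) B]
    (φ : A →ₙₐ[ZMod 3] B) (r : Fin 4 → A) :
    s4 (fun i => φ (r i)) = φ (s4 r) := by
  unfold s4
  simp only [map_add, map_mul, map_neg]

theorem s4_lift {A : Type*} [Ring A] [Algebra (ZMod 3) A] (r : Fin 4 → A) :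
    FreeAlgebra.lift (ZMod 3) r (s4 (fun i => FreeAlgebra.ι (ZMod 3) i)) = s4 r := by
  unfold s4
  simp only [map_add, map_mul, map_neg, FreeAlgebra.lift_ι_apply]

theorem s4_ne : (s4 (fun i : Fin 4 => FreeAlgebra.ι (ZMod 3) i) : FreeAlgebra (ZMod 3) (Fin 4)) ≠ 0 := by
  intro h
  have h1 := s4_lift (A := G) ![!![1, 0, 0; 0, 0, 0; 0, 0, 0], !![0, 1, 0; 0, 0, 0; 0, 0, 0],
    !![0, 0, 0; 0, 1, 0; 0, 0, 0], !![0, 0, 0; 0, 0, 1; 0, 0, 0]]
  rw [h, map_zero] at h1
  revert h1
  decide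

/-- There is a PI subalgebra of the restricted enveloping algebra of `gl_3(F_3)` which satisfies
`S_4` but no power of `S_2`. -/
theorem exists_subalgebra : ∃ R : NonUnitalSubalgebra (ZMod 3) u,
    (∃ m : ℕ, ∃ φ : FreeAlgebra (ZMod 3) (Fin m), φ ≠ 0 ∧
      ∀ r : Fin m → u, (∀ i, r i ∈ R) → FreeAlgebra.lift (ZMod 3) r φ = 0) ∧
    (∀ r : Fin 4 → u, (∀ i, r i ∈ R) → (∑ σ : Equiv.Perm (Fin 4),
            ((Equiv.Perm.sign σ : ℤˣ) : ℤ) • (List.ofFn fun i => r (σ i)).prod) = 0) ∧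
    (∀ t : ℕ, ∃ r : Fin 2 → u, (∀ i, r i ∈ R) ∧ (∑ σ : Equiv.Perm (Fin 2),
            ((Equiv.Perm.sign σ : ℤˣ) : ℤ) • (List.ofFn fun i => r (σ i)).prod) ^ t ≠ 0) := by
  obtain ⟨a, b, c, d, ha0, haa, hab, hac, had, hba, hbb, hbc, hbd, hca, hcb, hcc, hcd, hda, hdb,
    hdc, hdd⟩ := exists_units
  let φ := phiHom a b c d haa hab hac had hba hbb hbc hbd hca hcb hcc hcd hda hdb hdc hdd
  have hs4 : ∀ r : Fin 4 → u, (∀ i, r i ∈ NonUnitalAlgHom.range φ) → s4 r = 0 := by
    intro r hr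
    choose M hM using hr
    have : r = fun i => φ (M i) := funext fun i => (hM i).symm
    rw [this, s4_map, s4_mat, map_zero]
  have hb : φ !![0, 1; 0, 0] = b := by
    show phi a b c d _ = b
    simp [phi]
  have hc : φ !![0, 0; 1, 0] = c := by
    show phi a b c d _ = c
    simp [phi]
  refine ⟨NonUnitalAlgHom.range φ, ⟨4, s4 (fun i => FreeAlgebra.ι (ZMod 3) i), s4_ne, ?_⟩, ?_, ?_⟩
  · intro r hr
    rw [s4_lift, hs4 r hr]
  · intro r hr
    rw [std4, hs4 r hr]
  · intro t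
    refine ⟨![b, c], ?_, ?_⟩
    · intro i
      fin_cases i
      · exact ⟨_, hb⟩
      · exact ⟨_, hc⟩
    · rw [std2]
      intro h
      have h1 : ∀ t : ℕ, (b * c - c * b) ^ t * a = a := by
        intro t
        induction t with
        | zero => simp
        | succ t ih =>
          rw [pow_succ, mul_assoc, hbc, hcb, sub_mul, haa, hda, sub_zero, ← hbc, ← hcb]
          rw [hcb] at ih ⊢
          rw [hbc] at ih ⊢
          exact ih
      have h2 := h1 t
      have h3 : (![b, c] : Fin 2 → u) 0 * (![b, c] : Fin 2 → u) 1 -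
        (![b, c] : Fin 2 → u) 1 * (![b, c] : Fin 2 → u) 0 = b * c - c * b := rfl
      rw [h3] at h
      rw [h, zero_mul] at h2
      exact ha0 h2.symm

end Pool.Agent.T6.H22.RestEnv
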