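import Pool.Agent.T6.H22.ArrRing

/-!
# Classes of finitely generated rings with the two out of three property
-/

set_option autoImplicit false

open MvPolynomial

namespace Pool.Agent.T6.H22.Arr

/-- `A` is finitely generated as a ring -/
def FT (A : Type) [CommRing A] : Prop := (Int.castRingHom A).FiniteType

theorem FT.good {A : Type} [CommRing A] (h : FT A) : Good A := by
  have h1 : Algebra.FiniteType ℤ A := RingHom.finiteType_algebraMap.1 h
  exact good_of_finiteType

theorem FT.quot {A : Type} [CommRing A] (h : FT A) (I : Ideal A) : FT (A ⧸ I) := by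
  have h1 := RingHom.FiniteType.comp_surjective h (g := Ideal.Quotient.mk I)
    Ideal.Quotient.mk_surjective
  have h2 : (Ideal.Quotient.mk I).comp (Int.castRingHom A) = Int.castRingHom (A ⧸ I) :=
    RingHom.ext_int _ _
  rwa [h2] at h1

theorem FT.poly (n : ℕ) : FT (MvPolynomial (Fin n) ℤ) := by
  have h : Algebra.FiniteType ℤ (MvPolynomial (Fin n) ℤ) := inferInstance
  have h1 := RingHom.finiteType_algebraMap.2 h
  have h2 : algebraMap ℤ (MvPolynomial (Fin n) ℤ) = Int.castRingHom _ := RingHom.ext_int _ _
  rwa [h2] at h1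

/-- a class of rings with (a part of) the two out of three property -/
structure RingClass (P : ∀ (A : Type) [CommRing A], Prop) : Prop where
  iso : ∀ (A B : Type) [CommRing A] [CommRing B], (A ≃+* B) → P A → P B
  loc : ∀ (A : Type) [CommRing A] (f : A), FT A → P (A ⧸ Ideal.span {f}) → P A →
    P (Localization.Away f)
  quot : ∀ (A : Type) [CommRing A] (f : A), FT A → P (Localization.Away f) → P A →
    P (A ⧸ Ideal.span {f})

/-- localization does not see what is killed by `f` -/
theorem away_iso {A B : Type} [CommRing A] [CommRing B] (φ : A →+* B)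
    (hφ : Function.Surjective φ) (f : A) (hf : ∀ x, φ x = 0 → f * x = 0) :
    Nonempty (Localization.Away f ≃+* Localization.Away (φ f)) := by
  refine ⟨RingEquiv.ofBijective (Localization.awayMap φ f) ⟨?_, ?_⟩⟩
  · rw [injective_iff_map_eq_zero]
    intro y hy
    obtain ⟨x, ⟨_, n, rfl⟩, rfl⟩ := IsLocalization.exists_mk'_eq (Submonoid.powers f) y
    unfold Localization.awayMap IsLocalization.Away.map at hy
    rw [IsLocalization.map_mk', IsLocalization.mk'_eq_zero_iff] at hy
    obtain ⟨⟨_, m, rfl⟩, hm⟩ := hy
    rw [IsLocalization.mk'_eq_zero_iff]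
    refine ⟨⟨_, m + 1, rfl⟩, ?_⟩
    have h1 : φ (f ^ m * x) = 0 := by
      rw [map_mul, map_pow]
      exact hm
    have h2 := hf _ h1
    show f ^ (m + 1) * x = 0
    rw [pow_succ']
    rw [mul_assoc]
    exact h2
  · intro y
    obtain ⟨x, ⟨_, n, rfl⟩, rfl⟩ := IsLocalization.exists_mk'_eq (Submonoid.powers (φ f)) y
    obtain ⟨a, rfl⟩ := hφ x
    refine ⟨IsLocalization.mk' _ a (⟨f ^ n, n, rfl⟩ : Submonoid.powers f), ?_⟩
    unfold Localization.awayMap IsLocalization.Away.map
    rw [IsLocalization.map_mk']
    congr 1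
    apply Subtype.ext
    simp

variable {P : ∀ (A : Type) [CommRing A], Prop}

theorem span_singleton_list {B : Type} [CommRing B] (f : B) :
    Ideal.span {x | x ∈ [f]} = Ideal.span {f} := by
  congr 1
  ext x
  simp

theorem main_list (hP : RingClass P) (B : Type) [CommRing B] (hB : FT B) (Q : Submonoid B)
    (hQ : ∀ f ∈ Q, P (Localization.Away f)) :
    ∀ (n : ℕ) (l : List B), l.length = n → (∀ x ∈ l, x ∈ Q) →
      P (B ⧸ Ideal.span {x | x ∈ l}) := by
  have h0 : P B := by
    have h1 := hQ 1 Q.one_mem
    have h2 : IsLocalization.Away (1 : B) B := IsLocalization.away_of_isUnit_of_bijective B isUnit_one Function.bijective_id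
    exact hP.iso _ _ (IsLocalization.algEquiv (Submonoid.powers (1 : B))
      (Localization.Away (1 : B)) B).toRingEquiv h1
  intro n
  induction n with
  | zero =>
    intro l hl _
    rw [List.length_eq_zero_iff] at hl
    subst hl
    have h1 : Ideal.span {x : B | x ∈ ([] : List B)} = ⊥ := by
      rw [Ideal.span_eq_bot]
      intro x hx
      simp at hx
    exact hP.iso _ _ ((RingEquiv.quotientBot B).symm.trans (Ideal.quotEquivOfEq h1.symm)) h0
  | succ n ih =>
    intro l hl hlQ
    obtain ⟨f, l', rfl⟩ := List.exists_cons_of_length_eq_add_one hl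
    have hl' : l'.length = n := by simpa using hl
    have hfQ : f ∈ Q := hlQ f (by simp)
    have hf1 : P (B ⧸ Ideal.span {f}) := hP.quot B f hB (hQ f hfQ) h0
    set I := Ideal.span {x | x ∈ l'} with hI
    set J := Ideal.span {x | x ∈ l'.map (fun x => x * f)} with hJ
    have hPI : P (B ⧸ I) := ih l' hl' fun x hx => hlQ x (by simp [hx])
    have hPJ : P (B ⧸ J) := ih _ (by simpa using hl') (by
      intro x hx
      rw [List.mem_map] at hx
      obtain ⟨y, hy, rfl⟩ := hx
      exact Q.mul_mem (hlQ y (by simp [hy])) hfQ)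
    -- `J = f I`
    have hJI : J ≤ I := by
      rw [hJ, Ideal.span_le]
      intro x hx
      rw [Set.mem_ofPred_eq, List.mem_map] at hx
      obtain ⟨y, hy, rfl⟩ := hx
      exact Ideal.mul_mem_right _ _ (Ideal.subset_span hy)
    have hfI : ∀ x ∈ I, f * x ∈ J := by
      intro x hx
      rw [hI] at hx
      induction hx using Submodule.span_induction with
      | mem y hy =>
        rw [mul_comm]
        exact Ideal.subset_span (List.mem_map.2 ⟨y, hy, rfl⟩)
      | zero => rw [mul_zero]; exact J.zero_mem
      | add x y _ _ hx hy => rw [mul_add]; exact J.add_mem hx hy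
      | smul a x _ hx =>
        have : f * (a • x) = a * (f * x) := by rw [smul_eq_mul]; ring
        rw [this]
        exact J.mul_mem_left _ hx
    have hJf : J ≤ Ideal.span {f} := by
      rw [hJ, Ideal.span_le]
      intro x hx
      rw [Set.mem_ofPred_eq, List.mem_map] at hx
      obtain ⟨y, hy, rfl⟩ := hx
      exact Ideal.mul_mem_left _ _ (Ideal.mem_span_singleton_self _)
    -- the localization
    let fJ : B ⧸ J := Ideal.Quotient.mk J f
    let fI : B ⧸ I := Ideal.Quotient.mk I f
    have h1 : P ((B ⧸ J) ⧸ Ideal.span {fJ}) := by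
      have h2 : (Ideal.span {f}).map (Ideal.Quotient.mk J) = Ideal.span {fJ} := by
        rw [Ideal.map_span, Set.image_singleton]
      have e := (DoubleQuot.quotQuotEquivQuotSup J (Ideal.span {f})).symm
      rw [sup_eq_right.2 hJf] at e
      exact hP.iso _ _ (e.trans (Ideal.quotEquivOfEq h2)) hf1
    have h2 : P (Localization.Away fJ) := hP.loc _ fJ (hB.quot J) h1 hPJ
    have h3 : P (Localization.Away fI) := by
      obtain ⟨e⟩ := away_iso (Ideal.Quotient.factor hJI) (Ideal.Quotient.factor_surjective hJI) fJ (by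
        intro x hx
        obtain ⟨y, rfl⟩ := Ideal.Quotient.mk_surjective x
        rw [Ideal.Quotient.factor_mk, Ideal.Quotient.eq_zero_iff_mem] at hx
        show Ideal.Quotient.mk J f * Ideal.Quotient.mk J y = 0
        rw [← map_mul, Ideal.Quotient.eq_zero_iff_mem]
        exact hfI y hx)
      exact hP.iso _ _ e h2
    have h4 : P ((B ⧸ I) ⧸ Ideal.span {fI}) := hP.quot _ fI (hB.quot I) h3 hPI
    have h5 : (Ideal.span {f}).map (Ideal.Quotient.mk I) = Ideal.span {fI} := by
      rw [Ideal.map_span, Set.image_singleton]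
    have h6 : I ⊔ Ideal.span {f} = Ideal.span {x | x ∈ f :: l'} := by
      rw [hI, ← Ideal.span_union]
      congr 1
      ext x
      simp
    exact hP.iso _ _ ((Ideal.quotEquivOfEq h5.symm).trans
      ((DoubleQuot.quotQuotEquivQuotSup I (Ideal.span {f})).trans (Ideal.quotEquivOfEq h6))) h4

/-- the products of the special polynomials: the equations of the arrangements -/
noncomputable def arr (n : ℕ) : Submonoid (MvPolynomial (Fin n) ℤ) := Submonoid.closure {p | Special p}

/-- A class with the two out of three property which contains the complements of all arrangements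
contains all finitely generated rings. -/
theorem all_rings (hP : RingClass P)
    (h : ∀ (n : ℕ), ∀ f ∈ arr n, P (Localization.Away f)) (A : Type) [CommRing A] (hA : FT A) :
    P A := by
  obtain ⟨σ, hσ, ⟨R⟩⟩ := hA.good
  obtain ⟨n, ⟨e⟩⟩ := Finite.exists_equiv_fin σ
  -- transfer the presentation to `Fin n`
  let E : MvPolynomial (Fin n) ℤ ≃ₐ[ℤ] MvPolynomial σ ℤ := renameEquiv ℤ e.symm
  let S : Set (MvPolynomial (Fin n) ℤ) := rename e '' R.S
  have hS : S.Finite := R.fin.image _
  have hE : ∀ p, E (rename e p) = p := by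
    intro p
    show rename e.symm (rename e p) = p
    rw [rename_rename]
    simp
  have hE' : ∀ p, rename e (E p) = p := by
    intro p
    show rename e (rename e.symm p) = p
    rw [rename_rename]
    simp
  have hker : RingHom.ker (R.φ.comp (E : MvPolynomial (Fin n) ℤ →+* MvPolynomial σ ℤ)) =
      Ideal.span S := by
    ext p
    rw [RingHom.mem_ker, RingHom.comp_apply]
    have h1 : R.φ (E p) = 0 ↔ E p ∈ Ideal.span R.S := by rw [← R.ker, RingHom.mem_ker]
    have h2 : Ideal.span S = (Ideal.span R.S).map (rename e : MvPolynomial σ ℤ →ₐ[ℤ] _).toRingHom := by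
      rw [Ideal.map_span]
      rfl
    constructor
    · intro hp
      rw [h2, ← hE' p]
      exact Ideal.mem_map_of_mem (rename e : MvPolynomial σ ℤ →ₐ[ℤ] _).toRingHom (h1.1 hp)
    · intro hp
      apply h1.2
      have h3 := Ideal.mem_map_of_mem (E : MvPolynomial (Fin n) ℤ →+* MvPolynomial σ ℤ) hp
      rw [Ideal.map_span] at h3
      have h4 : ((E : MvPolynomial (Fin n) ℤ →+* MvPolynomial σ ℤ) '' S) = R.S := by
        ext q
        constructor
        · rintro ⟨_, ⟨r, hr, rfl⟩, rfl⟩
          have := hE r
          show E (rename e r) ∈ R.S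
          rw [this]; exact hr
        · intro hq
          exact ⟨_, ⟨q, hq, rfl⟩, hE q⟩
      rw [h4] at h3
      exact h3
  obtain ⟨l, hl⟩ : ∃ l : List (MvPolynomial (Fin n) ℤ), {x | x ∈ l} = S := by
    refine ⟨hS.toFinset.toList, ?_⟩
    ext x
    simp
  have h1 := main_list hP (MvPolynomial (Fin n) ℤ) (FT.poly n) (arr n) (h n) l.length l rfl (by
    intro x hx
    have hx' : x ∈ S := by rw [← hl]; exact hx
    obtain ⟨q, hq, rfl⟩ := hx'
    exact Submonoid.subset_closure ((R.spec q hq).rename e))
  rw [hl] at h1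
  exact hP.iso _ _ ((Ideal.quotEquivOfEq hker.symm).trans
    (RingHom.quotientKerEquivOfSurjective (R.surj.comp E.surjective))) h1

end Pool.Agent.T6.H22.Arr
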