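import Mathlib

/-!
# Presentations of finitely generated rings by equations `x = 1`, `x + y = z`, `x y = z`
-/

set_option autoImplicit false

open MvPolynomial

namespace Pool.Agent.T6.H22.Arr

/-- The polynomials `x_i - 1`, `x_i + x_j - x_k` and `x_i x_j - x_k`. -/
inductive Special {σ : Type} : MvPolynomial σ ℤ → Prop
  | one (i : σ) : Special (X i - 1)
  | add (i j k : σ) : Special (X i + X j - X k)
  | mul (i j k : σ) : Special (X i * X j - X k)

theorem Special.rename {σ τ : Type} (e : σ → τ) {p : MvPolynomial σ ℤ} (h : Special p) :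
    Special (MvPolynomial.rename e p) := by
  cases h with
  | one i => simpa using Special.one (e i)
  | add i j k => simpa using Special.add (e i) (e j) (e k)
  | mul i j k => simpa using Special.mul (e i) (e j) (e k)

/-- a presentation of `A` by special relations -/
structure Pres (A : Type) [CommRing A] (σ : Type) : Type where
  φ : MvPolynomial σ ℤ →+* A
  surj : Function.Surjective φ
  S : Set (MvPolynomial σ ℤ)
  fin : S.Finite
  spec : ∀ p ∈ S, Special p
  ker : RingHom.ker φ = Ideal.span S

variable {A : Type} [CommRing A]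

/-- add a variable with value `φ t` -/
noncomputable def Pres.ext {σ : Type} (P : Pres A σ) (t : MvPolynomial σ ℤ)
    (u : MvPolynomial (Option σ) ℤ) (hu : Special u)
    (htu : u = X none - rename some t ∨ u = -(X none - rename some t)) : Pres A (Option σ) where
  φ := eval₂Hom (Int.castRingHom A) (fun o => o.elim (P.φ t) (fun i => P.φ (X i)))
  surj := by
    intro a
    obtain ⟨p, rfl⟩ := P.surj a
    refine ⟨rename some p, ?_⟩
    rw [coe_eval₂Hom, eval₂_rename]
    have h : eval₂Hom (Int.castRingHom A) (fun i => P.φ (X i)) = P.φ := by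
      apply MvPolynomial.ringHom_ext'
      · exact RingHom.ext_int _ _
      · intro i; simp
    have h1 := RingHom.congr_fun h p
    exact h1
  S := (rename some '' P.S) ∪ {u}
  fin := (P.fin.image _).union (Set.finite_singleton _)
  spec := by
    rintro p (⟨q, hq, rfl⟩ | rfl)
    · exact (P.spec q hq).rename some
    · exact hu
  ker := by
    set φ' := eval₂Hom (Int.castRingHom A) (fun o : Option σ => o.elim (P.φ t) (fun i => P.φ (X i)))
      with hφ'
    have h : eval₂Hom (Int.castRingHom A) (fun i => P.φ (X i)) = P.φ := by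
      apply MvPolynomial.ringHom_ext'
      · exact RingHom.ext_int _ _
      · intro i; simp
    have hren : ∀ p : MvPolynomial σ ℤ, φ' (rename some p) = P.φ p := by
      intro p
      rw [hφ', coe_eval₂Hom, eval₂_rename]
      exact RingHom.congr_fun h p
    have hu0 : φ' (X none - rename some t) = 0 := by
      rw [map_sub, hren]
      simp [hφ']
    have hu1 : X none - rename some t ∈ Ideal.span ((rename some '' P.S) ∪ {u}) := by
      rcases htu with h | h
      · rw [← h]; exact Ideal.subset_span (Or.inr rfl)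
      · have h2 : X none - rename some t = -u := by rw [h, neg_neg]
        rw [h2]
        exact neg_mem (Ideal.subset_span (Or.inr rfl))
    apply le_antisymm
    · intro p hp
      rw [RingHom.mem_ker] at hp
      -- substitute `t` for the new variable
      set ψ : MvPolynomial (Option σ) ℤ →+* MvPolynomial σ ℤ :=
        eval₂Hom (Int.castRingHom _) (fun o => o.elim t X) with hψ
      have h1 : (Ideal.Quotient.mk (Ideal.span ((rename some '' P.S) ∪ {u}))) =
          ((Ideal.Quotient.mk (Ideal.span ((rename some '' P.S) ∪ {u}))).comp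
            (rename some : MvPolynomial σ ℤ →ₐ[ℤ] MvPolynomial (Option σ) ℤ).toRingHom).comp ψ := by
        apply MvPolynomial.ringHom_ext'
        · exact RingHom.ext_int _ _
        · intro o
          cases o with
          | none =>
            have : ψ (X none) = t := by simp [hψ]
            rw [RingHom.comp_apply, this, RingHom.comp_apply]
            exact Ideal.Quotient.eq.2 hu1
          | some i =>
            have : ψ (X (some i)) = X i := by simp [hψ]
            rw [RingHom.comp_apply, this, RingHom.comp_apply]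
            simp
      have h2 : φ' = P.φ.comp ψ := by
        apply MvPolynomial.ringHom_ext'
        · exact RingHom.ext_int _ _
        · intro o
          cases o with
          | none => simp [hφ', hψ]
          | some i => simp [hφ', hψ]
      have h3 : ψ p ∈ Ideal.span P.S := by
        rw [← P.ker, RingHom.mem_ker]
        rw [h2] at hp
        exact hp
      have h4 : rename some (ψ p) ∈ Ideal.span ((rename some '' P.S) ∪ {u}) := by
        have h5 := Ideal.mem_map_of_mem (rename some : MvPolynomial σ ℤ →ₐ[ℤ] _).toRingHom h3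
        rw [Ideal.map_span] at h5
        exact Ideal.span_mono (Set.subset_union_left) h5
      rw [← Ideal.Quotient.eq_zero_iff_mem]
      have h5 := RingHom.congr_fun h1 p
      rw [h5]
      exact Ideal.Quotient.eq_zero_iff_mem.2 h4
    · rw [Ideal.span_le]
      rintro p (⟨q, hq, rfl⟩ | rfl)
      · rw [SetLike.mem_coe, RingHom.mem_ker, hren, ← RingHom.mem_ker, P.ker]
        exact Ideal.subset_span hq
      · rw [SetLike.mem_coe, RingHom.mem_ker]
        rcases htu with h | h
        · rw [h, hu0]
        · rw [h, map_neg, hu0, neg_zero]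

theorem Pres.ext_some {σ : Type} (P : Pres A σ) (t : MvPolynomial σ ℤ)
    (u : MvPolynomial (Option σ) ℤ) (hu : Special u)
    (htu : u = X none - MvPolynomial.rename some t ∨ u = -(X none - MvPolynomial.rename some t)) (i : σ) :
    (P.ext t u hu htu).φ (X (some i)) = P.φ (X i) := by
  simp [Pres.ext]

theorem Pres.ext_none {σ : Type} (P : Pres A σ) (t : MvPolynomial σ ℤ)
    (u : MvPolynomial (Option σ) ℤ) (hu : Special u)
    (htu : u = X none - MvPolynomial.rename some t ∨ u = -(X none - MvPolynomial.rename some t)) :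
    (P.ext t u hu htu).φ (X none) = P.φ t := by
  simp [Pres.ext]

/-- `Q` extends `P` -/
def Extends {σ τ : Type} (P : Pres A σ) (Q : Pres A τ) : Prop :=
  ∃ e : σ → τ, ∀ i, Q.φ (X (e i)) = P.φ (X i)

theorem Extends.trans {σ τ υ : Type} {P : Pres A σ} {Q : Pres A τ} {R : Pres A υ}
    (h : Extends P Q) (h' : Extends Q R) : Extends P R := by
  obtain ⟨e, he⟩ := h
  obtain ⟨f, hf⟩ := h'
  exact ⟨fun i => f (e i), fun i => (hf _).trans (he i)⟩

/-- `a` is the value of a variable -/
def Named {σ : Type} (P : Pres A σ) (a : A) : Prop := ∃ i, P.φ (X i) = a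

theorem Extends.named {σ τ : Type} {P : Pres A σ} {Q : Pres A τ} (h : Extends P Q) {a : A}
    (ha : Named P a) : Named Q a := by
  obtain ⟨e, he⟩ := h
  obtain ⟨i, rfl⟩ := ha
  exact ⟨e i, he i⟩

/-- `a` can be named in all extensions of `P` -/
def Nameable {σ : Type} (P : Pres A σ) (a : A) : Prop :=
  ∀ (τ : Type) (_ : Finite τ) (Q : Pres A τ), Extends P Q →
    ∃ (υ : Type) (_ : Finite υ) (R : Pres A υ), Extends Q R ∧ Named R a

theorem nameable_of_ext {σ : Type} (P : Pres A σ) (a : A)
    (h : ∀ (τ : Type) (_ : Finite τ) (Q : Pres A τ), Extends P Q →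
      ∃ (υ : Type) (_ : Finite υ) (R : Pres A υ) (t : MvPolynomial υ ℤ)
        (u : MvPolynomial (Option υ) ℤ), Extends Q R ∧ R.φ t = a ∧ Special u ∧
        (u = X none - MvPolynomial.rename some t ∨ u = -(X none - MvPolynomial.rename some t))) :
    Nameable P a := by
  intro τ hτ Q hQ
  obtain ⟨υ, hυ, R, t, u, h1, h2, h3, h4⟩ := h τ hτ Q hQ
  refine ⟨Option υ, inferInstance, R.ext t u h3 h4, ?_, none, ?_⟩
  · exact h1.trans ⟨some, R.ext_some t u h3 h4⟩
  · rw [R.ext_none t u h3 h4, h2]

theorem Extends.refl {σ : Type} (P : Pres A σ) : Extends P P := ⟨id, fun _ => rfl⟩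

theorem nameable_zero {σ : Type} (P : Pres A σ) : Nameable P 0 := by
  apply nameable_of_ext
  intro τ hτ Q _
  refine ⟨τ, hτ, Q, 0, X none + X none - X none, Extends.refl Q, map_zero _, Special.add _ _ _, ?_⟩
  left
  rw [map_zero]
  ring

theorem nameable_one {σ : Type} (P : Pres A σ) : Nameable P 1 := by
  apply nameable_of_ext
  intro τ hτ Q _
  refine ⟨τ, hτ, Q, 1, X none - 1, Extends.refl Q, map_one _, Special.one _, ?_⟩
  left
  rw [map_one]

theorem Nameable.add {σ : Type} {P : Pres A σ} {a b : A} (ha : Nameable P a)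
    (hb : Nameable P b) : Nameable P (a + b) := by
  apply nameable_of_ext
  intro τ hτ Q hQ
  obtain ⟨υ, hυ, R, h1, h2⟩ := ha τ hτ Q hQ
  obtain ⟨υ', hυ', R', h1', j, hj⟩ := hb υ hυ R (hQ.trans h1)
  obtain ⟨i, hi⟩ := h1'.named h2
  refine ⟨υ', hυ', R', X i + X j, X (some i) + X (some j) - X none, h1.trans h1', ?_,
    Special.add _ _ _, ?_⟩
  · rw [map_add, hi, hj]
  · right
    rw [map_add, rename_X, rename_X]
    ring

theorem Nameable.mul {σ : Type} {P : Pres A σ} {a b : A} (ha : Nameable P a)
    (hb : Nameable P b) : Nameable P (a * b) := by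
  apply nameable_of_ext
  intro τ hτ Q hQ
  obtain ⟨υ, hυ, R, h1, h2⟩ := ha τ hτ Q hQ
  obtain ⟨υ', hυ', R', h1', j, hj⟩ := hb υ hυ R (hQ.trans h1)
  obtain ⟨i, hi⟩ := h1'.named h2
  refine ⟨υ', hυ', R', X i * X j, X (some i) * X (some j) - X none, h1.trans h1', ?_,
    Special.mul _ _ _, ?_⟩
  · rw [map_mul, hi, hj]
  · right
    rw [map_mul, rename_X, rename_X]
    ring

theorem Nameable.neg {σ : Type} {P : Pres A σ} {a : A} (ha : Nameable P a) : Nameable P (-a) := by
  apply nameable_of_ext
  intro τ hτ Q hQ
  obtain ⟨υ, hυ, R, h1, h2⟩ := ha τ hτ Q hQ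
  obtain ⟨υ', hυ', R', h1', j, hj⟩ := nameable_zero P υ hυ R (hQ.trans h1)
  obtain ⟨i, hi⟩ := h1'.named h2
  refine ⟨υ', hυ', R', X j - X i, X none + X (some i) - X (some j), h1.trans h1', ?_,
    Special.add _ _ _, ?_⟩
  · rw [map_sub, hi, hj, zero_sub]
  · left
    rw [map_sub, rename_X, rename_X]
    ring

theorem nameable {σ : Type} (P : Pres A σ) (a : A) : Nameable P a := by
  let N : Subring A :=
    { carrier := {a | Nameable P a}
      mul_mem' := fun ha hb => ha.mul hb
      one_mem' := nameable_one P
      add_mem' := fun ha hb => ha.add hb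
      zero_mem' := nameable_zero P
      neg_mem' := fun ha => ha.neg }
  obtain ⟨p, rfl⟩ := P.surj a
  have h : P.φ p ∈ N := by
    induction p using MvPolynomial.induction_on with
    | C n =>
      have : P.φ (C n) = (n : A) := by
        rw [show (C n : MvPolynomial σ ℤ) = (n : MvPolynomial σ ℤ) from rfl, map_intCast]
      rw [this]
      exact intCast_mem N n
    | add p q hp hq =>
      rw [map_add]
      exact N.add_mem hp hq
    | mul_X p i hp =>
      rw [map_mul]
      refine N.mul_mem hp ?_
      intro τ hτ Q hQ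
      exact ⟨τ, hτ, Q, Extends.refl Q, hQ.named ⟨i, rfl⟩⟩
  exact h

/-- `A` is presented by special relations -/
def Good (A : Type) [CommRing A] : Prop := ∃ (σ : Type) (_ : Finite σ), Nonempty (Pres A σ)

theorem good_poly (σ : Type) [Finite σ] : Good (MvPolynomial σ ℤ) :=
  ⟨σ, inferInstance, ⟨{
    φ := RingHom.id _
    surj := Function.surjective_id
    S := ∅
    fin := Set.finite_empty
    spec := fun _ h => h.elim
    ker := by
      rw [Ideal.span_empty]
      exact (RingHom.injective_iff_ker_eq_bot _).1 Function.injective_id }⟩⟩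

theorem Good.iso {B : Type} [CommRing B] (h : Good A) (e : A ≃+* B) : Good B := by
  obtain ⟨σ, hσ, ⟨P⟩⟩ := h
  refine ⟨σ, hσ, ⟨{ P with φ := (e : A →+* B).comp P.φ, surj := ?_, ker := ?_ }⟩⟩
  · exact e.surjective.comp P.surj
  · rw [← P.ker]
    ext x
    rw [RingHom.mem_ker, RingHom.mem_ker, RingHom.comp_apply]
    exact map_eq_zero_iff e e.injective

theorem Good.quot (h : Good A) (a : A) : Good (A ⧸ Ideal.span {a}) := by
  obtain ⟨σ, hσ, ⟨P⟩⟩ := h
  obtain ⟨τ, hτ, Q, -, j, hj⟩ := nameable P a σ hσ P (Extends.refl P)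
  refine ⟨τ, hτ, ⟨Pres.mk ((Ideal.Quotient.mk (Ideal.span {a})).comp Q.φ) ?_
    (Q.S ∪ {X j + X j - X j}) (Q.fin.union (Set.finite_singleton _)) ?_ ?_⟩⟩
  · exact Ideal.Quotient.mk_surjective.comp Q.surj
  · rintro p (hp | rfl)
    · exact Q.spec p hp
    · exact Special.add _ _ _
  · have h1 : (X j + X j - X j : MvPolynomial τ ℤ) = X j := by ring
    rw [h1]
    ext x
    rw [RingHom.mem_ker, RingHom.comp_apply, Ideal.Quotient.eq_zero_iff_mem,
      Ideal.mem_span_singleton', Ideal.span_union, ← Q.ker]
    constructor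
    · rintro ⟨c, hc⟩
      obtain ⟨p, rfl⟩ := Q.surj c
      have h2 : x = (x - p * X j) + p * X j := by ring
      rw [h2]
      refine Ideal.add_mem _ ?_ ?_
      · refine (le_sup_left : RingHom.ker Q.φ ≤ _) ?_
        rw [RingHom.mem_ker, map_sub, map_mul, hj, hc, sub_self]
      · refine (le_sup_right : Ideal.span {X j} ≤ _) ?_
        exact Ideal.mul_mem_left _ _ (Ideal.mem_span_singleton_self _)
    · intro hx
      obtain ⟨y, hy, z, hz, rfl⟩ := Submodule.mem_sup.1 hx
      obtain ⟨p, rfl⟩ := Ideal.mem_span_singleton'.1 hz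
      refine ⟨Q.φ p, ?_⟩
      rw [map_add, map_mul, hj, (RingHom.mem_ker.1 hy), zero_add]

theorem good_list : ∀ (n : ℕ) (A : Type) [CommRing A] (_ : Good A) (l : List A), l.length = n →
    Good (A ⧸ Ideal.span {x | x ∈ l}) := by
  intro n
  induction n with
  | zero =>
    intro A _ h l hl
    rw [List.length_eq_zero_iff] at hl
    subst hl
    have h1 : Ideal.span {x : A | x ∈ ([] : List A)} = ⊥ := by
      rw [Ideal.span_eq_bot]
      intro x hx
      simp at hx
    exact h.iso ((RingEquiv.quotientBot A).symm.trans (Ideal.quotEquivOfEq h1.symm))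
  | succ n ih =>
    intro A _ h l hl
    obtain ⟨a, l', rfl⟩ := List.exists_cons_of_length_eq_add_one hl
    have h1 := ih (A ⧸ Ideal.span {a}) (h.quot a) (l'.map (Ideal.Quotient.mk _)) (by
      rw [List.length_map]; simpa using hl)
    refine h1.iso ?_
    have h2 : (Ideal.span {x | x ∈ l'.map (Ideal.Quotient.mk (Ideal.span {a}))}) =
        (Ideal.span {x | x ∈ l'}).map (Ideal.Quotient.mk (Ideal.span {a})) := by
      rw [Ideal.map_span]
      congr 1
      ext x
      simp
    have h3 : Ideal.span {a} ⊔ Ideal.span {x | x ∈ l'} = Ideal.span {x | x ∈ a :: l'} := by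
      rw [← Ideal.span_union]
      congr 1
      ext x
      simp
    exact ((Ideal.quotEquivOfEq h2).trans (DoubleQuot.quotQuotEquivQuotSup _ _)).trans
      (Ideal.quotEquivOfEq h3)

theorem good_of_finiteType [hA : Algebra.FiniteType ℤ A] : Good A := by
  obtain ⟨n, f, hf⟩ := Algebra.FiniteType.iff_quotient_mvPolynomial''.1 hA
  obtain ⟨s, hs⟩ := (isNoetherian_def.1 (inferInstance : IsNoetherian (MvPolynomial (Fin n) ℤ)
    (MvPolynomial (Fin n) ℤ))) (RingHom.ker f)
  have h1 := good_list s.toList.length (MvPolynomial (Fin n) ℤ) (good_poly (Fin n)) s.toList rfl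
  have h2 : Ideal.span {x | x ∈ s.toList} = RingHom.ker f := by
    rw [← hs]
    congr 1
    ext x
    simp
  exact h1.iso ((Ideal.quotEquivOfEq h2).trans (RingHom.quotientKerEquivOfSurjective hf))

end Pool.Agent.T6.H22.Arr
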