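import Pool.Agent.T6.H22.ArrClass

/-!
# Properties of arithmetic schemes with the two out of three property
-/

set_option autoImplicit false

open CategoryTheory AlgebraicGeometry TopologicalSpace

namespace Pool.Agent.T6.H22.Arr

/-- An arithmetic scheme: a scheme which is separated and of finite type over `Spec ℤ`. -/
def IsArith (X : Scheme.{0}) : Prop :=
  ∃ f : X ⟶ Spec (CommRingCat.of ℤ), IsSeparated f ∧ LocallyOfFiniteType f ∧ QuasiCompact f

theorem IsArith.closed {X Z : Scheme.{0}} (hX : IsArith X) (i : Z ⟶ X) [IsClosedImmersion i] :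
    IsArith Z := by
  obtain ⟨f, h1, h2, h3⟩ := hX
  exact ⟨i ≫ f, inferInstance, inferInstance, inferInstance⟩

theorem IsArith.spec {A : Type} [CommRing A] (hA : FT A) : IsArith (Spec (CommRingCat.of A)) := by
  refine ⟨Spec.map (CommRingCat.ofHom (Int.castRingHom A)), inferInstance, ?_, inferInstance⟩
  rw [HasRingHomProperty.Spec_iff (P := @LocallyOfFiniteType)]
  exact hA

/-- the ring of an affine arithmetic scheme is finitely generated -/
theorem ft_of_affine {X : Scheme.{0}} [IsAffine X] (f : X ⟶ Spec (CommRingCat.of ℤ))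
    [LocallyOfFiniteType f] : FT Γ(X, ⊤) := by
  obtain ⟨φ, hφ⟩ := Spec.map_surjective (X.isoSpec.inv ≫ f)
  have h1 : LocallyOfFiniteType (Spec.map φ) := by rw [hφ]; infer_instance
  rw [HasRingHomProperty.Spec_iff (P := @LocallyOfFiniteType)] at h1
  have h2 : φ.hom = Int.castRingHom Γ(X, ⊤) := RingHom.ext_int _ _
  rw [h2] at h1
  exact h1

/-- A property of arithmetic schemes with the two out of three property: if `Z ⟶ X` is a closed
immersion into an arithmetic scheme and `U` its open complement, and if two of the schemes `Z`, `X`,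
`U` have the property, then so has the third. -/
structure TwoOfThree (P : Scheme.{0} → Prop) : Prop where
  iso : ∀ X Y : Scheme.{0}, Nonempty (X ≅ Y) → P X → P Y
  closed : ∀ (X Z : Scheme.{0}) (i : Z ⟶ X) (U : X.Opens), IsArith X → IsClosedImmersion i →
    Set.range i = (U : Set X)ᶜ → P X → P U → P Z
  compl : ∀ (X Z : Scheme.{0}) (i : Z ⟶ X) (U : X.Opens), IsArith X → IsClosedImmersion i →
    Set.range i = (U : Set X)ᶜ → P X → P Z → P U
  total : ∀ (X Z : Scheme.{0}) (i : Z ⟶ X) (U : X.Opens), IsArith X → IsClosedImmersion i →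
    Set.range i = (U : Set X)ᶜ → P Z → P U → P X

/-- the principal open subscheme of `Spec A` defined by `f` -/
def bop {A : Type} [CommRing A] (f : A) : (Spec (CommRingCat.of A)).Opens :=
  PrimeSpectrum.basicOpen f

theorem range_quot {A : Type} [CommRing A] (f : A) :
    Set.range (Spec.map (CommRingCat.ofHom (Ideal.Quotient.mk (Ideal.span {f})))) =
      ((bop f : (Spec (CommRingCat.of A)).Opens) : Set (Spec (CommRingCat.of A)))ᶜ := by
  have h1 := range_comap_of_surjective (A ⧸ Ideal.span {f})
    (Ideal.Quotient.mk (Ideal.span {f})) Ideal.Quotient.mk_surjective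
  rw [Ideal.mk_ker, PrimeSpectrum.zeroLocus_span] at h1
  have h2 : ((PrimeSpectrum.basicOpen f : Set (PrimeSpectrum A)))ᶜ =
      PrimeSpectrum.zeroLocus {f} := by
    rw [PrimeSpectrum.basicOpen_eq_zeroLocus_compl, compl_compl]
  exact h1.trans h2.symm

theorem TwoOfThree.ringClass {P : Scheme.{0} → Prop} (hP : TwoOfThree P) :
    RingClass fun A [CommRing A] => P (Spec (CommRingCat.of A)) where
  iso A B _ _ e h := by
    refine hP.iso _ _ ⟨?_⟩ h
    exact (Scheme.Spec.mapIso (RingEquiv.toCommRingCatIso e).op).symm
  loc A _ f hA h1 h2 := by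
    have h3 := hP.compl (Spec (CommRingCat.of A)) (Spec (CommRingCat.of (A ⧸ Ideal.span {f})))
      (Spec.map (CommRingCat.ofHom (Ideal.Quotient.mk (Ideal.span {f}))))
      (bop f) (IsArith.spec hA)
      (IsClosedImmersion.spec_of_surjective _ Ideal.Quotient.mk_surjective) (range_quot f) h2 h1
    exact hP.iso _ _ ⟨basicOpenIsoSpecAway (R := CommRingCat.of A) f⟩ h3
  quot A _ f hA h1 h2 := by
    have h3 := hP.iso _ _ ⟨(basicOpenIsoSpecAway (R := CommRingCat.of A) f).symm⟩ h1
    exact hP.closed (Spec (CommRingCat.of A)) (Spec (CommRingCat.of (A ⧸ Ideal.span {f})))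
      (Spec.map (CommRingCat.ofHom (Ideal.Quotient.mk (Ideal.span {f}))))
      (bop f) (IsArith.spec hA)
      (IsClosedImmersion.spec_of_surjective _ Ideal.Quotient.mk_surjective) (range_quot f) h2 h3

theorem noeth {X : Scheme.{0}} (hX : IsArith X) : IsNoetherian X := by
  obtain ⟨f, h1, h2, h3⟩ := hX
  have h4 : IsLocallyNoetherian X := LocallyOfFiniteType.isLocallyNoetherian f
  have h5 : CompactSpace X := by
    exact (quasiCompact_iff_compactSpace f).1 h3
  exact {}

theorem IsArith.opens {X : Scheme.{0}} (hX : IsArith X) (U : X.Opens) : IsArith U := by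
  have hN := noeth hX
  obtain ⟨f, h1, h2, h3⟩ := hX
  exact ⟨U.ι ≫ f, inferInstance, inferInstance, inferInstance⟩

/-- A property of arithmetic schemes with the two out of three property which holds for the
complements of all arrangements holds for all arithmetic schemes. -/
theorem all_schemes {P : Scheme.{0} → Prop} (hP : TwoOfThree P)
    (h : ∀ (n : ℕ), ∀ f ∈ arr n, P (Spec (CommRingCat.of (Localization.Away f))))
    (X : Scheme.{0}) (hX : IsArith X) : P X := by
  have haff : ∀ (A : Type) [CommRing A], FT A → P (Spec (CommRingCat.of A)) := fun A _ hA =>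
    all_rings hP.ringClass h A hA
  have hN := noeth hX
  have hw : WellFoundedLT (Closeds X) := inferInstance
  have key : ∀ C : Closeds X, ∀ (Z : Scheme.{0}) (i : Z ⟶ X), IsClosedImmersion i →
      Set.range i = (C : Set X) → P Z := by
    intro C
    induction C using hw.induction with
    | ind C ih =>
    intro Z i hi hr
    have hZ : IsArith Z := hX.closed i
    by_cases hne : IsEmpty Z
    · -- the empty scheme is the spectrum of the zero ring
      have h1 : FT PUnit.{1} := by
        have := (FT.poly 0).quot ⊤
        unfold FT at this ⊢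
        exact RingHom.FiniteType.of_surjective _ (fun x => ⟨0, Subsingleton.elim _ _⟩)
      have h2 := haff PUnit.{1} h1
      refine hP.iso _ _ ⟨?_⟩ h2
      have h3 : IsEmpty (Spec (CommRingCat.of PUnit.{1})) := by
        have : Subsingleton PUnit.{1} := inferInstance
        exact (PrimeSpectrum.isEmpty_iff_subsingleton (R := PUnit.{1})).2 this
      exact (isInitialOfIsEmpty (X := Spec (CommRingCat.of PUnit.{1}))).uniqueUpToIso
        (isInitialOfIsEmpty (X := Z))
    · rw [not_isEmpty_iff] at hne
      obtain ⟨z⟩ := hne
      obtain ⟨W, hW, hzW, -⟩ := exists_isAffineOpen_mem_and_subset (X := Z) (x := z)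
        (U := ⊤) trivial
      -- the complement of `W`
      let D : Closeds Z := ⟨(W : Set Z)ᶜ, W.2.isClosed_compl⟩
      let I := Scheme.IdealSheafData.vanishingIdeal D
      have hI : Set.range I.subschemeι = (W : Set Z)ᶜ := by
        rw [Scheme.IdealSheafData.range_subschemeι]
        exact Scheme.IdealSheafData.coe_support_vanishingIdeal D
      have h1 : P I.subscheme := by
        refine ih ⟨Set.range (I.subschemeι ≫ i), ?_⟩ ?_ I.subscheme (I.subschemeι ≫ i)
          inferInstance rfl
        · exact (IsClosedImmersion.isClosedEmbedding (I.subschemeι ≫ i)).isClosed_range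
        · have hc : Set.range (I.subschemeι ≫ i) = i '' (W : Set Z)ᶜ := by
            rw [← hI, ← Set.range_comp]
            rfl
          have hinj : Function.Injective i := (IsClosedImmersion.isClosedEmbedding i).injective
          constructor
          · intro x hx
            have hx' : x ∈ Set.range (I.subschemeι ≫ i) := hx
            rw [hc] at hx'
            obtain ⟨y, -, rfl⟩ := hx'
            have : i y ∈ Set.range i := ⟨y, rfl⟩
            rw [hr] at this
            exact this
          · intro hle
            have h5 : i z ∈ (C : Set X) := by rw [← hr]; exact ⟨z, rfl⟩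
            have h6 : i z ∈ Set.range (I.subschemeι ≫ i) := hle h5
            rw [hc] at h6
            obtain ⟨y, hy, hyz⟩ := h6
            exact hy (by rw [hinj hyz]; exact hzW)
      have h2 : P W := by
        obtain ⟨f, h1, h2, h3⟩ := hZ
        have h4 : IsAffine W := hW
        have h5 := ft_of_affine (W.ι ≫ f)
        exact hP.iso _ _ ⟨(Scheme.isoSpec W).symm⟩ (haff _ h5)
      exact hP.total Z I.subscheme I.subschemeι W hZ inferInstance hI h1 h2
  have h1 : IsClosedImmersion (𝟙 X) := inferInstance
  exact key ⊤ X (𝟙 X) h1 (by simp)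

end Pool.Agent.T6.H22.Arr
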