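import Pool.Agent.R673.MG.Types
import Pool.Agent.V11238.MG.Conj

/-!
# Infinite groups all of whose proper subgroups are cyclic
-/

set_option autoImplicit false

namespace Pool.Agent.T6.H22.Mon

open Subgroup

universe u

/-- no proper subgroup of finite index -/
def NoFI (G : Type u) [Group G] : Prop := ∀ H : Subgroup G, H.FiniteIndex → H = ⊤

theorem NoFI.quot {G : Type u} [Group G] (h : NoFI G) (N : Subgroup G) [N.Normal] :
    NoFI (G ⧸ N) := by
  intro H hH
  have h1 : (H.comap (QuotientGroup.mk' N)).FiniteIndex := by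
    refine ⟨?_⟩
    rw [H.index_comap_of_surjective (QuotientGroup.mk'_surjective N)]
    exact hH.index_ne_zero
  have h2 := h _ h1
  rw [eq_top_iff]
  rintro x -
  obtain ⟨g, rfl⟩ := QuotientGroup.mk'_surjective N x
  have : g ∈ H.comap (QuotientGroup.mk' N) := by rw [h2]; trivial
  exact this

/-- A finitely generated abelian group without proper subgroups of finite index is trivial. -/
theorem comm_trivial {A : Type u} [CommGroup A] [hfg : Group.FG A] (h : NoFI A) :
    Subsingleton A := by
  have key : ∀ p : ℕ, p ≠ 0 → ∀ x : A, ∃ y : A, y ^ p = x := by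
    intro p hp x
    let f : A →* A := powMonoidHom p
    have h1 : Finite (A ⧸ f.range) := by
      have ht : IsMulTorsion (A ⧸ f.range) := by
        intro x
        obtain ⟨g, rfl⟩ := QuotientGroup.mk_surjective x
        rw [isOfFinOrder_iff_pow_eq_one]
        refine ⟨p, Nat.pos_of_ne_zero hp, ?_⟩
        rw [← QuotientGroup.mk_pow, QuotientGroup.eq_one_iff]
        exact ⟨g, rfl⟩
      exact CommGroup.finite_of_fg_isMulTorsion _ ht
    have h2 : f.range.FiniteIndex := finiteIndex_of_finite_quotient
    have h3 := h _ h2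
    have h4 : x ∈ f.range := by rw [h3]; trivial
    exact h4
  -- Nakayama
  have hfg' : AddGroup.FG (Additive A) := inferInstance
  have hmf : Module.Finite ℤ (Additive A) := Module.Finite.iff_addGroup_fg.2 hfg'
  have h5 : (⊤ : Submodule ℤ (Additive A)) ≤ (Ideal.span {(2 : ℤ)}) • ⊤ := by
    rintro x -
    obtain ⟨y, hy⟩ := key 2 two_ne_zero (Additive.toMul x)
    have : x = (2 : ℤ) • (Additive.ofMul y) := by
      rw [← ofMul_zpow]
      apply Additive.toMul.injective
      rw [← hy]
      exact (zpow_natCast y 2).symm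
    rw [this]
    exact Submodule.smul_mem_smul (Ideal.mem_span_singleton_self _) trivial
  obtain ⟨r, hr1, hr2⟩ := Submodule.exists_sub_one_mem_and_smul_eq_zero_of_fg_of_le_smul
    (Ideal.span {(2 : ℤ)}) ⊤ hmf.fg_top h5
  have hr0 : r ≠ 0 := by
    rintro rfl
    rw [Ideal.mem_span_singleton] at hr1
    omega
  have ht : IsMulTorsion A := by
    intro x
    rw [isOfFinOrder_iff_pow_eq_one]
    refine ⟨r.natAbs, Int.natAbs_pos.2 hr0, ?_⟩
    have h6 := hr2 (Additive.ofMul x) trivial
    have h7 : x ^ r = 1 := h6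
    rcases Int.natAbs_eq r with h8 | h8
    · rw [h8, zpow_natCast] at h7; exact h7
    · rw [h8, zpow_neg, zpow_natCast, inv_eq_one] at h7; exact h7
  have hfin : Finite A := CommGroup.finite_of_fg_isMulTorsion _ ht
  have h9 : (⊥ : Subgroup A) = ⊤ := h _ inferInstance
  exact (Subgroup.subsingleton_iff.1 (subsingleton_of_bot_eq_top h9))

theorem commutator_eq_top {G : Type u} [Group G] [hfg : Group.FG G] (h : NoFI G) :
    commutator G = ⊤ := by
  have h1 : NoFI (Abelianization G) := h.quot (commutator G)
  have h2 : Group.FG (Abelianization G) := QuotientGroup.fg (commutator G)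
  have h3 : Subsingleton (Abelianization G) := comm_trivial h1
  rw [eq_top_iff]
  intro g _
  have : (Abelianization.of g) = 1 := Subsingleton.elim _ _
  exact (QuotientGroup.eq_one_iff g).1 this

theorem center_ne_top {G : Type u} [Group G] [Nontrivial G] [Group.FG G] (h : NoFI G) :
    center G ≠ ⊤ := by
  intro hc
  have h1 := commutator_eq_top h
  have h2 : commutator G = ⊥ := by
    rw [commutator_def, Subgroup.commutator_eq_bot_iff_le_centralizer]
    intro x _
    rw [Subgroup.mem_centralizer_iff]
    intro y _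
    have : x ∈ center G := by rw [hc]; trivial
    exact (Subgroup.mem_center_iff.1 this y)
  rw [h1] at h2
  exact top_ne_bot h2

/-- a cyclic normal subgroup of a group without subgroups of finite index is central -/
theorem le_center_of_cyclic {G : Type u} [Group G] (h : NoFI G) (N : Subgroup G) [hN : N.Normal]
    (hc : IsCyclic N) : N ≤ center G := by
  obtain ⟨⟨z, hzN⟩, hgen⟩ := hc
  have hmem : ∀ g : G, g ∈ N ↔ ∃ a : ℤ, z ^ a = g := by
    intro g
    constructor
    · intro hg
      obtain ⟨a, ha⟩ := hgen ⟨g, hg⟩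
      exact ⟨a, by simpa using congrArg Subtype.val ha⟩
    · rintro ⟨a, rfl⟩
      exact N.zpow_mem hzN a
  -- the conjugates of `z` form a finite set
  have hfin : (MulAction.orbit (ConjAct G) z).Finite := by
    by_cases hz : IsOfFinOrder z
    · have h1 : (Subgroup.zpowers z : Set G).Finite := hz.finite_zpowers
      refine h1.subset ?_
      rintro _ ⟨g, rfl⟩
      obtain ⟨a, ha⟩ := (hmem _).1 (hN.conj_mem z hzN (ConjAct.ofConjAct g))
      exact ⟨a, ha⟩
    · refine (Set.toFinite {z, z⁻¹}).subset ?_
      rintro _ ⟨g, rfl⟩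
      set x : G := ConjAct.ofConjAct g with hx
      have hgx : g • z = x * z * x⁻¹ := ConjAct.smul_def g z
      obtain ⟨a, ha⟩ := (hmem _).1 (hN.conj_mem z hzN x)
      obtain ⟨b, hb⟩ := (hmem _).1 (hN.conj_mem z hzN x⁻¹)
      have h1 : z ^ (a * b) = z ^ (1 : ℤ) := by
        have e1 : x * (z ^ b) * x⁻¹ = z := by rw [hb]; group
        rw [← conj_zpow, ← ha, ← zpow_mul] at e1
        rw [e1, zpow_one]
      have h2 : a * b = 1 := R673.MG.zpow_inj_of hz h1
      simp only [Set.mem_insert_iff, Set.mem_singleton_iff]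
      rcases Int.eq_one_or_neg_one_of_mul_eq_one h2 with h3 | h3
      · left; rw [hgx, ← ha, h3, zpow_one]
      · right; rw [hgx, ← ha, h3, zpow_neg_one]
  have h1 : Finite (ConjAct G ⧸ MulAction.stabilizer (ConjAct G) z) := by
    have := hfin.to_subtype
    exact Finite.of_equiv _ (MulAction.orbitEquivQuotientStabilizer (ConjAct G) z)
  have h2 : (MulAction.stabilizer (ConjAct G) z).FiniteIndex := finiteIndex_of_finite_quotient
  have h3 : MulAction.stabilizer (ConjAct G) z = ⊤ := h _ h2
  intro x hx
  obtain ⟨a, rfl⟩ := (hmem x).1 hx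
  rw [mem_center_iff]
  intro g
  have h4 : ConjAct.toConjAct g ∈ MulAction.stabilizer (ConjAct G) z := by rw [h3]; trivial
  rw [MulAction.mem_stabilizer_iff, ConjAct.toConjAct_smul] at h4
  have h5 : Commute g z := by
    have : g * z = z * g := by
      calc g * z = (g * z * g⁻¹) * g := by group
        _ = z * g := by rw [h4]
    exact this
  exact (h5.zpow_right a).eq

/-- Type (3) -/
def T3 (G : Type u) [Group G] : Prop := ¬ IsCyclic G ∧ ∀ H : Subgroup G, H ≠ ⊤ → IsCyclic H

theorem T3.nofi {G : Type u} [Group G] [Infinite G] (h : T3 G) : NoFI G :=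
  R673.MG.cyclic_no_fi h.1 h.2

theorem T3.normal_le {G : Type u} [Group G] [Infinite G] (h : T3 G) (N : Subgroup G)
    [hN : N.Normal] (hne : N ≠ ⊤) : N ≤ center G :=
  le_center_of_cyclic h.nofi N (h.2 N hne)

theorem T3.simple {G : Type u} [Group G] [Infinite G] [Group.FG G] (h : T3 G) :
    IsSimpleGroup (G ⧸ center G) := by
  apply V11238.MG.simple_of_maximal (center G) (center_ne_top h.nofi)
  intro L hL hle hne
  exact le_antisymm (h.normal_le L hne) hle

theorem fng_of_cyclic {G : Type u} [Group G] (N : Subgroup G) [hN : N.Normal] (hc : IsCyclic N) :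
    N.IsFinitelyNormallyGenerated := by
  obtain ⟨⟨z, hzN⟩, hgen⟩ := hc
  refine ⟨{z}, Set.finite_singleton z, ?_⟩
  apply le_antisymm
  · apply normalClosure_le_normal
    rintro g rfl
    exact hzN
  · intro g hg
    obtain ⟨a, ha⟩ := hgen ⟨g, hg⟩
    have h1 : z ^ a = g := by simpa using congrArg Subtype.val ha
    rw [← h1]
    exact (normalClosure {z}).zpow_mem (subset_normalClosure (Set.mem_singleton z)) a

theorem T3.fp {G : Type u} [Group G] [Infinite G] [hG : Group.IsFinitelyPresented G]
    [Group.FG G] (h : T3 G) :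
    Group.IsFinitelyPresented (G ⧸ center G) :=
  Group.IsFinitelyPresented.quotient (center G)
    (fng_of_cyclic _ (h.2 _ (center_ne_top h.nofi)))

theorem T3.infinite {G : Type u} [Group G] [Infinite G] [Group.FG G] (h : T3 G) :
    Infinite (G ⧸ center G) := by
  by_contra hcon
  rw [not_infinite_iff_finite] at hcon
  have h1 : (center G).FiniteIndex := finiteIndex_of_finite_quotient
  exact center_ne_top h.nofi (h.nofi _ h1)

theorem T3.quot {G : Type u} [Group G] [Infinite G] [Group.FG G] (h : T3 G) :
    T3 (G ⧸ center G) := by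
  refine ⟨?_, ?_⟩
  · intro hc
    have h1 := h.infinite
    have h2 := h.simple
    have h3 : NoFI (G ⧸ center G) := h.nofi.quot _
    let : CommGroup (G ⧸ center G) := IsCyclic.commGroup
    have h4 : Subsingleton (G ⧸ center G) := comm_trivial h3
    exact not_finite (G ⧸ center G)
  · intro H hH
    have h1 : H.comap (QuotientGroup.mk' (center G)) ≠ ⊤ := by
      intro e
      apply hH
      rw [← map_comap_eq_self_of_surjective (QuotientGroup.mk'_surjective (center G)) H, e]
      exact map_top_of_surjective _ (QuotientGroup.mk'_surjective _)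
    have h2 := h.2 _ h1
    have h3 := map_comap_eq_self_of_surjective (QuotientGroup.mk'_surjective (center G)) H
    rw [← h3]
    exact isCyclic_of_surjective
      ((QuotientGroup.mk' (center G)).subgroupMap (H.comap (QuotientGroup.mk' (center G))))
      ((QuotientGroup.mk' (center G)).subgroupMap_surjective _)

/-- the subgroup generated by `g` and the center is not the whole group -/
theorem sup_ne_top {G : Type u} [Group G] (hc : center G ≠ ⊤) (g : G) :
    zpowers g ⊔ center G ≠ ⊤ := by
  intro e
  apply hc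
  rw [eq_top_iff]
  have hcomm : ∀ x : G, ∃ (a : ℤ) (z : G), z ∈ center G ∧ x = g ^ a * z := by
    intro x
    have hx : x ∈ zpowers g ⊔ center G := by rw [e]; trivial
    rw [Subgroup.mem_sup_of_normal_right] at hx
    obtain ⟨_, ⟨a, rfl⟩, z, hz, hx⟩ := hx
    exact ⟨a, z, hz, hx.symm⟩
  intro x _
  rw [mem_center_iff]
  intro y
  obtain ⟨a, z, hz, rfl⟩ := hcomm x
  obtain ⟨b, w, hw, rfl⟩ := hcomm y
  have e1 : Commute z w := (mem_center_iff.1 hw z)
  have e2 : Commute z (g ^ b) := (mem_center_iff.1 hz (g ^ b)).symm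
  have e3 : Commute w (g ^ a) := (mem_center_iff.1 hw (g ^ a)).symm
  have e4 : Commute (g ^ a) (g ^ b) := (Commute.refl g).zpow_zpow a b
  exact (((e4.symm.mul_right e2.symm).mul_left (e3.mul_right e1.symm))).eq

theorem T3.tors {G : Type u} [Group G] [Infinite G] [Group.FG G] (h : T3 G)
    (hne : center G ≠ ⊥) (g : G) : ∃ n : ℕ, 0 < n ∧ g ^ n ∈ center G := by
  obtain ⟨z, hz1⟩ := (center G).ne_bot_iff_exists_ne_one.1 hne
  obtain ⟨⟨c, hc⟩, hgen⟩ := h.2 _ (sup_ne_top (center_ne_top h.nofi) g)
  have hgm : g ∈ zpowers g ⊔ center G := (le_sup_left : zpowers g ≤ _) (mem_zpowers g)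
  have hzm : (z : G) ∈ zpowers g ⊔ center G := (le_sup_right : center G ≤ _) z.2
  obtain ⟨i, hi⟩ := hgen ⟨g, hgm⟩
  obtain ⟨j, hj⟩ := hgen ⟨z, hzm⟩
  have hi' : c ^ i = g := by simpa using congrArg Subtype.val hi
  have hj' : c ^ j = z := by simpa using congrArg Subtype.val hj
  have hj0 : j ≠ 0 := by
    rintro rfl
    rw [zpow_zero] at hj'
    exact hz1 (Subtype.ext hj'.symm)
  have h1 : g ^ j ∈ center G := by
    rw [← hi', ← zpow_mul, mul_comm, zpow_mul, hj']
    exact (center G).zpow_mem z.2 i
  refine ⟨j.natAbs, Int.natAbs_pos.2 hj0, ?_⟩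
  rcases Int.natAbs_eq j with h8 | h8
  · rw [h8, zpow_natCast] at h1; exact h1
  · rw [h8, zpow_neg, zpow_natCast] at h1
    exact (inv_mem_iff).1 h1

end Pool.Agent.T6.H22.Mon
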