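import Mathlib

/-!
# The properties (2)-(7) of monster groups
-/

set_option autoImplicit false

open scoped Pointwise

namespace Pool.Agent.T6.H22.Mon

universe u

/-- Type (2): `G` has bounded exponent. -/
def Type2 (G : Type u) [Group G] : Prop := ∃ n : ℕ, 1 ≤ n ∧ ∀ g : G, g ^ n = 1

/-- Type (3): `G` is not cyclic, and every proper subgroup of `G` is cyclic. -/
def Type3 (G : Type u) [Group G] : Prop :=
  ¬ IsCyclic G ∧ ∀ H : Subgroup G, H ≠ ⊤ → IsCyclic H

/-- Type (4): for some prime `p` every nontrivial proper subgroup is cyclic of order `p`. -/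
def Type4 (G : Type u) [Group G] : Prop :=
  ∃ p : ℕ, p.Prime ∧ ∀ H : Subgroup G, H ≠ ⊥ → H ≠ ⊤ → IsCyclic H ∧ Nat.card H = p

/-- Type (5): `G` is complete. -/
def Type5 (G : Type u) [Group G] : Prop :=
  ∀ g : G, ∀ m : ℕ, 1 ≤ m → ∃ h : G, h ^ m = g

/-- Type (6): `G` has finitely many conjugacy classes. -/
def Type6 (G : Type u) [Group G] : Prop := Finite (ConjClasses G)

/-- The growth function with respect to `S`: the number of elements of word length at most `n`. -/
noncomputable def growth {G : Type u} [Group G] (S : Finset G) (n : ℕ) : ℕ :=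
  (((S : Set G) ∪ (S : Set G)⁻¹ ∪ {1}) ^ n).ncard

/-- Exponential growth with respect to `S`: the growth function is bounded below by an exponential
function `e ^ (c r)` with `c > 0`. -/
def Exponential {G : Type u} [Group G] (S : Finset G) : Prop :=
  ∃ c : ℝ, 0 < c ∧ ∀ r : ℕ, Real.exp (c * r) ≤ growth S r

/-- Type (7), intermediate growth, with respect to the finite generating set `S`: the growth
function is bounded above by no polynomial and bounded below by no exponential function
`e ^ (c r)`, `c > 0`. -/
def Type7 {G : Type u} [Group G] (S : Finset G) : Prop :=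
  (∀ p : Polynomial ℝ, ∃ r : ℕ, p.eval (r : ℝ) < growth S r) ∧ ¬ Exponential S

end Pool.Agent.T6.H22.Mon
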