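import Pool.Agent.T6.H22.Mon
import Pool.Agent.T6.H22.MonDefs

/-!
# Coexistence of the properties of monster groups
-/

set_option autoImplicit false

open scoped Pointwise

namespace Pool.Agent.T6.H22.Mon

open Subgroup

universe u

variable {G : Type u} [Group G]

theorem fg_of_fp (G : Type u) [Group G] [h : Group.IsFinitelyPresented G] : Group.FG G := by
  obtain ⟨n, φ, hφ, -⟩ := h.out
  exact Group.fg_of_surjective hφ

theorem zpowers_ne_top (h : ¬ IsCyclic G) (g : G) : zpowers g ≠ ⊤ := by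
  intro e
  apply h
  refine ⟨g, fun x => ?_⟩
  have : x ∈ zpowers g := by rw [e]; trivial
  exact this

theorem not_cyclic_of_four [Infinite G] (h : Type4 G) : ¬ IsCyclic G := by
  obtain ⟨p, hp, h⟩ := h
  rintro ⟨c, hc⟩
  have hcf : ¬ IsOfFinOrder c := by
    intro hf
    have h1 : (Set.univ : Set G).Finite := by
      refine hf.finite_zpowers.subset ?_
      intro g _
      obtain ⟨a, ha⟩ := hc g
      exact ⟨a, ha⟩
    exact Set.infinite_univ h1
  have h1 : Subgroup.zpowers (c ^ (2 : ℤ)) ≠ ⊥ := by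
    intro e
    rw [Subgroup.zpowers_eq_bot] at e
    have := R673.MG.zpow_inj_of hcf (e.trans (zpow_zero c).symm)
    omega
  have h2 : Subgroup.zpowers (c ^ (2 : ℤ)) ≠ ⊤ := by
    intro e
    have h3 : c ∈ Subgroup.zpowers (c ^ (2 : ℤ)) := by rw [e]; trivial
    obtain ⟨a, ha⟩ := h3
    have ha' : (c ^ (2 : ℤ)) ^ a = c ^ (1 : ℤ) := by rw [zpow_one]; exact ha
    rw [← zpow_mul] at ha'
    have := R673.MG.zpow_inj_of hcf ha'
    omega
  obtain ⟨-, h3⟩ := h _ h1 h2
  rw [Nat.card_zpowers] at h3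
  have h4 : IsOfFinOrder (c ^ (2 : ℤ)) := by
    rw [← orderOf_pos_iff, h3]
    exact hp.pos
  apply hcf
  obtain ⟨n, hn, hn1⟩ := isOfFinOrder_iff_pow_eq_one.1 h4
  rw [← zpow_natCast, ← zpow_mul] at hn1
  have := R673.MG.zpow_inj_of hcf (hn1.trans (zpow_zero c).symm)
  omega

theorem four_three [Infinite G] (h : Type4 G) : Type3 G := by
  refine ⟨not_cyclic_of_four h, ?_⟩
  obtain ⟨p, hp, h⟩ := h
  intro H hH
  by_cases hb : H = ⊥
  · rw [hb]
    exact isCyclic_of_subsingleton
  · exact (h H hb hH).1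

theorem four_two [Infinite G] (h : Type4 G) : Type2 G := by
  have hnc := not_cyclic_of_four h
  obtain ⟨p, hp, h⟩ := h
  refine ⟨p, hp.one_lt.le, fun g => ?_⟩
  by_cases hg : g = 1
  · rw [hg, one_pow]
  have h1 : zpowers g ≠ ⊥ := by rwa [Ne, zpowers_eq_bot]
  obtain ⟨-, h3⟩ := h _ h1 (zpowers_ne_top hnc g)
  rw [Nat.card_zpowers] at h3
  rw [← h3]
  exact pow_orderOf_eq_one g

theorem Type4.simple [Infinite G] [Group.FG G] (h4 : Type4 G) : IsSimpleGroup G := by
  have h3 : T3 G := four_three h4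
  have hnt : Nontrivial G := inferInstance
  refine ⟨fun N hN => ?_⟩
  by_contra hcon
  push Not at hcon
  obtain ⟨hb, ht⟩ := hcon
  have hle := h3.normal_le N ht
  obtain ⟨p, hp, h⟩ := h4
  have hcb : center G ≠ ⊥ := fun e => hb (le_bot_iff.1 (e ▸ hle))
  have hct := center_ne_top h3.nofi
  have hex : ∃ g : G, g ∉ center G := by
    by_contra hcon
    push Not at hcon
    exact hct (eq_top_iff.2 fun g _ => hcon g)
  obtain ⟨g, hg⟩ := hex
  set K := zpowers g ⊔ center G with hK
  have hKt : K ≠ ⊤ := sup_ne_top hct g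
  have hle2 : center G ≤ K := le_sup_right
  have hKb : K ≠ ⊥ := fun e => hcb (le_bot_iff.1 (e ▸ hle2))
  have h5 := (h _ hcb hct).2
  have h6 := (h _ hKb hKt).2
  have hfK : Finite K := Nat.finite_of_card_ne_zero (by rw [h6]; exact hp.ne_zero)
  have h7 : center G = K := Subgroup.eq_of_le_of_card_ge hle2 (by rw [h5, h6])
  apply hg
  show g ∈ center G
  rw [h7]
  exact (le_sup_left : zpowers g ≤ K) (mem_zpowers g)

/-- a nontrivial group is not both of bounded exponent and complete -/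
theorem not_two_five [Nontrivial G] (h2 : Type2 G) : ¬ Type5 G := by
  intro h5
  obtain ⟨n, hn, h⟩ := h2
  obtain ⟨g, hg⟩ := exists_ne (1 : G)
  obtain ⟨x, hx⟩ := h5 g n hn
  rw [h x] at hx
  exact hg hx.symm

/-- the elements which commute with a positive power of `g` -/
def elem (g : G) : Subgroup G where
  carrier := {x | ∃ n : ℕ, 0 < n ∧ Commute x (g ^ n)}
  one_mem' := ⟨1, one_pos, Commute.one_left _⟩
  mul_mem' := by
    rintro x y ⟨n, hn, hx⟩ ⟨m, hm, hy⟩
    refine ⟨n * m, Nat.mul_pos hn hm, ?_⟩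
    have h1 : Commute x (g ^ (n * m)) := by rw [pow_mul]; exact hx.pow_right m
    have h2 : Commute y (g ^ (n * m)) := by rw [mul_comm, pow_mul]; exact hy.pow_right n
    exact h1.mul_left h2
  inv_mem' := by
    rintro x ⟨n, hn, hx⟩
    exact ⟨n, hn, hx.inv_left⟩

theorem mem_elem {g x : G} : x ∈ elem g ↔ ∃ n : ℕ, 0 < n ∧ Commute x (g ^ n) := Iff.rfl

/-- for a finitely generated group in which some element of infinite order is a Baumslag-Solitar
element, not all elements are in `elem g` -/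
theorem elem_ne_top [hfg : Group.FG G] {g t : G} {a b : ℕ} (hg : ¬ IsOfFinOrder g) (hab : a < b)
    (h : t * g ^ a * t⁻¹ = g ^ b) : elem g ≠ ⊤ := by
  intro e
  obtain ⟨S, hS⟩ := (Group.fg_def.1 hfg)
  have hm : ∀ x : G, ∃ n : ℕ, 0 < n ∧ Commute x (g ^ n) := by
    intro x
    have : x ∈ elem g := by rw [e]; trivial
    exact this
  choose f hf0 hf using hm
  set n := ∏ x ∈ S, f x with hn
  have hn0 : 0 < n := Finset.prod_pos fun x _ => hf0 x
  have hcent : ∀ x : G, Commute x (g ^ n) := by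
    intro x
    have h1 : Subgroup.closure (S : Set G) ≤ Subgroup.centralizer {g ^ n} := by
      rw [Subgroup.closure_le]
      intro y hy
      rw [SetLike.mem_coe, Subgroup.mem_centralizer_singleton_iff]
      obtain ⟨k, hk⟩ := Finset.dvd_prod_of_mem f hy
      rw [hn, hk, pow_mul]
      exact ((hf y).pow_right k).eq
    rw [hS] at h1
    have h2 := h1 (Subgroup.mem_top x)
    rw [Subgroup.mem_centralizer_singleton_iff] at h2
    exact h2
  have h1 : g ^ (b * n) = g ^ (a * n) := by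
    rw [pow_mul, ← h, conj_pow, ← pow_mul]
    have h2 : Commute t (g ^ (a * n)) := by
      rw [mul_comm, pow_mul]
      exact (hcent t).pow_right a
    rw [h2.eq, mul_inv_cancel_right]
  have h3 := injective_pow_iff_not_isOfFinOrder.2 hg h1
  have := Nat.eq_of_mul_eq_mul_right hn0 h3
  omega

theorem conj_mem_elem {g t x : G} {a b : ℕ} (hb : 0 < b)
    (h : t * g ^ a * t⁻¹ = g ^ b) (hx : x ∈ elem g) : t * x * t⁻¹ ∈ elem g := by
  obtain ⟨n, hn, hx⟩ := hx
  refine ⟨b * n, Nat.mul_pos hb hn, ?_⟩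
  have h1 : g ^ (b * n) = t * g ^ (a * n) * t⁻¹ := by
    rw [pow_mul, ← h, conj_pow, ← pow_mul]
  have h2 : Commute x (g ^ (a * n)) := by
    rw [mul_comm, pow_mul]
    exact hx.pow_right a
  rw [h1]
  show t * x * t⁻¹ * (t * g ^ (a * n) * t⁻¹) = t * g ^ (a * n) * t⁻¹ * (t * x * t⁻¹)
  calc t * x * t⁻¹ * (t * g ^ (a * n) * t⁻¹) = t * (x * g ^ (a * n)) * t⁻¹ := by group
    _ = t * (g ^ (a * n) * x) * t⁻¹ := by rw [h2.eq]
    _ = _ := by group

/-- in a finitely generated group all of whose proper subgroups are cyclic there are no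
Baumslag-Solitar relations between powers of an element of infinite order -/
theorem no_bs [hfg : Group.FG G] (h3 : ∀ H : Subgroup G, H ≠ ⊤ → IsCyclic H) {g t : G} {a b : ℕ}
    (hg : ¬ IsOfFinOrder g) (ha : 0 < a) (hab : a < b) : t * g ^ a * t⁻¹ ≠ g ^ b := by
  intro h
  have hb : 0 < b := ha.trans hab
  obtain ⟨⟨c, hc⟩, hgen⟩ := h3 _ (elem_ne_top hg hab h)
  have hgm : g ∈ elem g := ⟨1, one_pos, (Commute.refl g).pow_right 1⟩
  have hmem : ∀ x ∈ elem g, ∃ i : ℤ, c ^ i = x := by
    intro x hx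
    obtain ⟨i, hi⟩ := hgen ⟨x, hx⟩
    exact ⟨i, by simpa using congrArg Subtype.val hi⟩
  obtain ⟨k, hk⟩ := hmem g hgm
  have hcf : ¬ IsOfFinOrder c := by
    intro hf
    apply hg
    rw [← hk]
    exact hf.zpow
  have h' : t⁻¹ * g ^ b * t⁻¹⁻¹ = g ^ a := by
    rw [← h]; group
  obtain ⟨i, hi⟩ := hmem _ (conj_mem_elem hb h hc)
  obtain ⟨j, hj⟩ := hmem _ (conj_mem_elem ha h' hc)
  have h1 : c ^ (i * j) = c ^ (1 : ℤ) := by
    have e1 : t * (c ^ j) * t⁻¹ = c := by rw [hj]; group
    rw [← conj_zpow, ← hi, ← zpow_mul] at e1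
    rw [e1, zpow_one]
  have h2 : i * j = 1 := R673.MG.zpow_inj_of hcf h1
  have h5 : t * g ^ a * t⁻¹ = c ^ (i * k * a) := by
    rw [← hk, ← zpow_natCast, ← zpow_mul, ← conj_zpow, ← hi, ← zpow_mul]
    congr 1
    ring
  have h6 : c ^ (i * k * a) = c ^ (k * b) := by
    rw [← h5, h, ← hk, ← zpow_natCast, ← zpow_mul]
  have h7 := R673.MG.zpow_inj_of hcf h6
  have hk0 : k ≠ 0 := by
    rintro rfl
    rw [zpow_zero] at hk
    exact hg (hk ▸ IsOfFinOrder.one)
  have h8 : i * (a : ℤ) = b := by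
    apply mul_left_cancel₀ hk0
    linarith
  have ha' : (0 : ℤ) < a := by exact_mod_cast ha
  have hab' : (a : ℤ) < b := by exact_mod_cast hab
  rcases Int.eq_one_or_neg_one_of_mul_eq_one h2 with h9 | h9
  · rw [h9, one_mul] at h8; omega
  · rw [h9] at h8; omega

/-- an element of infinite order in a group with finitely many conjugacy classes -/
theorem exists_bs (h6 : Type6 G) {g : G} (hg : ¬ IsOfFinOrder g) :
    ∃ (a b : ℕ) (t : G), 0 < a ∧ a < b ∧ t * g ^ a * t⁻¹ = g ^ b := by
  have : Finite (ConjClasses G) := h6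
  obtain ⟨x, y, hne, hxy⟩ := Finite.exists_ne_map_eq_of_infinite
    (fun n : ℕ => ConjClasses.mk (g ^ (n + 1)))
  wlog hlt : x < y with H
  · exact H h6 hg inferInstance y x hne.symm hxy.symm (lt_of_le_of_ne (not_lt.1 hlt) hne.symm)
  obtain ⟨t, ht⟩ := isConj_iff.1 (ConjClasses.mk_eq_mk_iff_isConj.1 hxy)
  exact ⟨x + 1, y + 1, t, Nat.succ_pos _, Nat.succ_lt_succ hlt, ht⟩

theorem pow_order_conj {t r g : G} (ht : t * r * t⁻¹ = g) : g ^ orderOf r = 1 := by
  rw [← ht, conj_pow, pow_orderOf_eq_one, mul_one, mul_inv_cancel]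

theorem two_of_torsion (h6 : Type6 G) (h : ∀ g : G, IsOfFinOrder g) : Type2 G := by
  classical
  have : Finite (ConjClasses G) := h6
  have := Fintype.ofFinite (ConjClasses G)
  have h0 : ∀ c : ConjClasses G, 0 < orderOf (Quotient.out c : G) := fun c =>
    orderOf_pos_iff.2 (h _)
  refine ⟨∏ c : ConjClasses G, orderOf (Quotient.out c : G), ?_, ?_⟩
  · exact Finset.prod_pos fun c _ => h0 c
  · intro g
    have h1 : ConjClasses.mk (Quotient.out (ConjClasses.mk g)) = ConjClasses.mk g :=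
      Quotient.out_eq _
    obtain ⟨t, ht⟩ := isConj_iff.1 (ConjClasses.mk_eq_mk_iff_isConj.1 h1)
    obtain ⟨k, hk⟩ := Finset.dvd_prod_of_mem
      (fun c : ConjClasses G => orderOf (Quotient.out c : G)) (Finset.mem_univ (ConjClasses.mk g))
    have h2 : g ^ orderOf (Quotient.out (ConjClasses.mk g) : G) = 1 := pow_order_conj ht
    rw [hk, pow_mul, h2, one_pow]

/-! ### Complete groups -/

/-- in a finitely generated group whose proper subgroups are cyclic and which is not cyclic, an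
increasing sequence of cyclic subgroups is stationary -/
theorem not_five_of_three [hfg : Group.FG G] (hnt : Nontrivial G) (h3 : Type3 G) : ¬ Type5 G := by
  intro h5
  obtain ⟨g, hg⟩ := exists_ne (1 : G)
  -- a sequence of roots
  choose root hroot using fun (x : G) (m : ℕ) => h5 x (m + 1) (Nat.succ_pos m)
  let r : ℕ → G := fun n => Nat.rec g (fun n x => root x n) n
  have hr0 : r 0 = g := rfl
  have hrs : ∀ n, r (n + 1) ^ (n + 1) = r n := fun n => hroot (r n) n
  have hmono : ∀ n, zpowers (r n) ≤ zpowers (r (n + 1)) := by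
    intro n
    rw [zpowers_le, ← hrs n]
    exact pow_mem (mem_zpowers _) _
  have hm : Monotone fun n => zpowers (r n) := monotone_nat_of_le_succ hmono
  set U : Subgroup G := ⨆ n, zpowers (r n) with hU
  have hUm : ∀ x, x ∈ U ↔ ∃ n, x ∈ zpowers (r n) := fun x =>
    Subgroup.mem_iSup_of_directed hm.directed_le
  -- `U` is not finitely generated in the sense that it is no cyclic group
  have hUne : ¬ ∃ c : G, U = zpowers c := by
    rintro ⟨c, hc⟩
    have hcU : c ∈ U := by rw [hc]; exact mem_zpowers c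
    obtain ⟨n, hn⟩ := (hUm c).1 hcU
    have hall : ∀ m, n ≤ m → zpowers (r m) = zpowers c := by
      intro m hm'
      apply le_antisymm
      · rw [← hc]; exact le_iSup (fun n => zpowers (r n)) m
      · rw [zpowers_le]; exact hm hm' hn
    have hgm : ∀ m, g ∈ zpowers (r m) := fun m => hm (Nat.zero_le m) (mem_zpowers g)
    by_cases hcf : IsOfFinOrder c
    · -- finite order
      have hN : 0 < orderOf c := orderOf_pos_iff.2 hcf
      have hord : ∀ m, n ≤ m → orderOf (r m) = orderOf c := by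
        intro m hm'
        rw [← Nat.card_zpowers, hall m hm', Nat.card_zpowers]
      obtain ⟨m, hmk⟩ : ∃ m, m + 1 = orderOf c * (n + 1) := by
        refine ⟨orderOf c * (n + 1) - 1, ?_⟩
        have : 0 < orderOf c * (n + 1) := Nat.mul_pos hN (Nat.succ_pos n)
        omega
      have hnm : n ≤ m := by
        have : 1 * (n + 1) ≤ orderOf c * (n + 1) := Nat.mul_le_mul_right _ hN
        omega
      have h1 : r m = 1 := by
        have h2 : r (m + 1) ^ (m + 1) = 1 := by
          rw [← orderOf_dvd_iff_pow_eq_one, hord (m + 1) (by omega), hmk]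
          exact dvd_mul_right _ _
        rw [← hrs m, h2]
      have h2 := hgm m
      rw [h1, zpowers_one_eq_bot, mem_bot] at h2
      exact hg h2
    · -- infinite order
      have h1 : zpowers (r (n + 2)) = zpowers c := hall (n + 2) (by omega)
      have h2 : zpowers (r (n + 1)) = zpowers c := hall (n + 1) (by omega)
      have hri : ¬ IsOfFinOrder (r (n + 2)) := by
        intro hf
        have h3 : c ∈ zpowers (r (n + 2)) := by rw [h1]; exact mem_zpowers c
        obtain ⟨i, rfl⟩ := h3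
        exact hcf hf.zpow
      have h3 : r (n + 2) ∈ zpowers (r (n + 1)) := by rw [h2, ← h1]; exact mem_zpowers _
      obtain ⟨j, hj⟩ := h3
      have hj' : r (n + 1) ^ j = r (n + 2) := hj
      rw [← hrs (n + 1), ← zpow_natCast, ← zpow_mul] at hj'
      have h4 : r (n + 2) ^ (((n + 1 + 1 : ℕ) : ℤ) * j) = r (n + 2) ^ (1 : ℤ) := by
        rw [zpow_one]; exact hj'
      have h5 := R673.MG.zpow_inj_of hri h4
      have h6 := Int.eq_one_or_neg_one_of_mul_eq_one h5
      push_cast at h6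
      omega
  apply hUne
  by_cases hUt : U = ⊤
  · obtain ⟨S, hS⟩ := (Group.fg_def.1 hfg)
    have h1 : ∀ x : G, ∃ n, x ∈ zpowers (r n) := by
      intro x
      rw [← hUm, hUt]; trivial
    choose f hf using h1
    refine ⟨r (S.sup f), ?_⟩
    rw [hUt]
    symm
    rw [eq_top_iff, ← hS, closure_le]
    intro x hx
    exact hm (Finset.le_sup (f := f) hx) (hf x)
  · obtain ⟨⟨c, hc⟩, hgen⟩ := h3.2 U hUt
    refine ⟨c, le_antisymm ?_ (by rw [zpowers_le]; exact hc)⟩
    intro x hx
    obtain ⟨i, hi⟩ := hgen ⟨x, hx⟩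
    exact ⟨i, by simpa using congrArg Subtype.val hi⟩

end Pool.Agent.T6.H22.Mon
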