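import Pool.Agent.T6.H22.Mon2

/-!
# Baumslag-Solitar relations and exponential growth
-/

set_option autoImplicit false

open scoped Pointwise

namespace Pool.Agent.T6.H22.Mon

open Subgroup

universe u

variable {G : Type u} [Group G]

/-- the generators, their inverses and the identity -/
def gen (S : Finset G) : Set G := (S : Set G) ∪ (S : Set G)⁻¹ ∪ {1}

theorem growth_eq (S : Finset G) (n : ℕ) : growth S n = (gen S ^ n).ncard := rfl

theorem one_mem_gen (S : Finset G) : (1 : G) ∈ gen S := Or.inr rfl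

theorem gen_finite (S : Finset G) : (gen S).Finite :=
  (S.finite_toSet.union S.finite_toSet.inv).union (Set.finite_singleton _)

theorem pow_gen_finite (S : Finset G) (n : ℕ) : (gen S ^ n).Finite := by
  induction n with
  | zero => rw [pow_zero]; exact Set.finite_one
  | succ n ih => rw [pow_succ]; exact ih.mul (gen_finite S)

theorem gen_inv (S : Finset G) : (gen S)⁻¹ = gen S := by
  unfold gen
  rw [Set.union_inv, Set.union_inv, inv_inv, Set.inv_singleton, inv_one, Set.union_comm (S : Set G)⁻¹]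

theorem pow_gen_mono (S : Finset G) {m n : ℕ} (h : m ≤ n) : gen S ^ m ⊆ gen S ^ n :=
  Set.pow_subset_pow_right (one_mem_gen S) h

theorem inv_mem_pow {S : Finset G} {n : ℕ} {x : G} (h : x ∈ gen S ^ n) : x⁻¹ ∈ gen S ^ n := by
  have h1 : x⁻¹ ∈ (gen S ^ n)⁻¹ := by simpa using h
  rwa [← inv_pow, gen_inv] at h1

theorem mul_mem_pow {S : Finset G} {m n : ℕ} {x y : G} (hx : x ∈ gen S ^ m) (hy : y ∈ gen S ^ n) :
    x * y ∈ gen S ^ (m + n) := by
  rw [pow_add]
  exact Set.mul_mem_mul hx hy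

theorem exists_mem_pow (S : Finset G) (hS : closure (S : Set G) = ⊤) (x : G) :
    ∃ n, x ∈ gen S ^ n := by
  have hx : x ∈ closure (S : Set G) := by rw [hS]; trivial
  induction hx using Subgroup.closure_induction with
  | mem x hx => exact ⟨1, by rw [pow_one]; exact Or.inl (Or.inl hx)⟩
  | one => exact ⟨0, by rw [pow_zero]; rfl⟩
  | mul x y _ _ ihx ihy =>
    obtain ⟨m, hm⟩ := ihx
    obtain ⟨n, hn⟩ := ihy
    exact ⟨m + n, mul_mem_pow hm hn⟩
  | inv x _ ih =>
    obtain ⟨m, hm⟩ := ih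
    exact ⟨m, inv_mem_pow hm⟩

theorem growth_mul_le (S : Finset G) (r k : ℕ) : growth S (r * k) ≤ growth S r ^ k := by
  rw [growth_eq, growth_eq, pow_mul]
  induction k with
  | zero => rw [pow_zero, pow_zero, ← Set.singleton_one, Set.ncard_singleton]
  | succ k ih =>
    rw [pow_succ, pow_succ]
    have h1 := Set.natCard_mul_le (s := (gen S ^ r) ^ k) (t := gen S ^ r)
    exact h1.trans (Nat.mul_le_mul_right _ ih)

/-- powers of `g` are exponentially distorted -/
theorem distorted {S : Finset G} {g t : G} {a b l : ℕ} (hb : 0 < b) (hg : g ∈ gen S ^ l)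
    (ht : t ∈ gen S ^ l) (h : t * g ^ a * t⁻¹ = g ^ b) (n : ℕ) :
    ∀ m : ℕ, m * a ^ n ≤ b ^ (n + 1) → g ^ m ∈ gen S ^ ((b + 2) * l * (n + 1)) := by
  have hpow : ∀ m : ℕ, g ^ m ∈ gen S ^ (l * m) := by
    intro m
    rw [pow_mul]
    exact Set.pow_mem_pow hg
  induction n with
  | zero =>
    intro m hm
    rw [pow_zero, mul_one, zero_add, pow_one] at hm
    refine pow_gen_mono S ?_ (hpow m)
    nlinarith
  | succ n ih =>
    intro m hm
    have h1 : a * (m / b) * a ^ n ≤ b ^ (n + 1) := by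
      have h2 : b * (m / b) ≤ m := Nat.mul_div_le m b
      have h3 : b * (a * (m / b) * a ^ n) ≤ b * b ^ (n + 1) := by
        calc b * (a * (m / b) * a ^ n) = (b * (m / b)) * a ^ (n + 1) := by ring
          _ ≤ m * a ^ (n + 1) := Nat.mul_le_mul_right _ h2
          _ ≤ b ^ (n + 1 + 1) := hm
          _ = b * b ^ (n + 1) := by ring
      exact Nat.le_of_mul_le_mul_left h3 hb
    have h2 := ih _ h1
    have h3 : g ^ m = t * g ^ (a * (m / b)) * t⁻¹ * g ^ (m % b) := by
      rw [pow_mul, ← conj_pow, h, ← pow_mul, ← pow_add, Nat.div_add_mod]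
    rw [h3]
    have h4 := mul_mem_pow (mul_mem_pow (mul_mem_pow ht h2) (inv_mem_pow ht)) (hpow (m % b))
    refine pow_gen_mono S ?_ h4
    have h5 : m % b ≤ b := (Nat.mod_lt m hb).le
    have h6 : l * (m % b) ≤ l * b := Nat.mul_le_mul_left _ h5
    nlinarith

theorem exp_growth {S : Finset G} (hS : closure (S : Set G) = ⊤) {g t : G} {a b : ℕ}
    (hg : ¬ IsOfFinOrder g) (ha : 0 < a) (hab : a < b) (h : t * g ^ a * t⁻¹ = g ^ b) :
    Exponential S := by
  have hb : 0 < b := ha.trans hab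
  obtain ⟨l1, hl1⟩ := exists_mem_pow S hS g
  obtain ⟨l2, hl2⟩ := exists_mem_pow S hS t
  set l := l1 + l2 + 1 with hl
  have hgl : g ∈ gen S ^ l := pow_gen_mono S (by omega) hl1
  have htl : t ∈ gen S ^ l := pow_gen_mono S (by omega) hl2
  set C := (b + 2) * l with hC
  have hC0 : 0 < C := Nat.mul_pos (by omega) (by omega)
  have hdist := distorted hb hgl htl h
  have ha' : (0 : ℝ) < a := by exact_mod_cast ha
  have hb' : (0 : ℝ) < b := by exact_mod_cast hb
  have hC' : (0 : ℝ) < C := by exact_mod_cast hC0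
  -- a lower bound for the growth function
  have hlow : ∀ n : ℕ, ((b : ℝ) / a) ^ n ≤ growth S (C * (n + 1)) := by
    intro n
    set M := b ^ (n + 1) / a ^ n with hM
    have h1 : (fun m : ℕ => g ^ m) '' (Set.Iic M) ⊆ gen S ^ (C * (n + 1)) := by
      rintro _ ⟨m, hm, rfl⟩
      apply hdist n m
      calc m * a ^ n ≤ M * a ^ n := Nat.mul_le_mul_right _ hm
        _ ≤ b ^ (n + 1) := Nat.div_mul_le_self _ _
    have h2 := Set.ncard_le_ncard h1 (pow_gen_finite S _)
    rw [Set.ncard_image_of_injective _ (injective_pow_iff_not_isOfFinOrder.2 hg)] at h2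
    have h3 : (Set.Iic M).ncard = M + 1 := by
      rw [Set.ncard_eq_toFinset_card']
      simp
    rw [h3] at h2
    have h4 : ((M + 1 : ℕ) : ℝ) ≤ growth S (C * (n + 1)) := by exact_mod_cast h2
    refine le_trans ?_ h4
    have h5 : b ^ (n + 1) < a ^ n * (M + 1) := Nat.lt_mul_div_succ _ (pow_pos ha n)
    have h6 : (b : ℝ) ^ (n + 1) < (a : ℝ) ^ n * ((M + 1 : ℕ) : ℝ) := by exact_mod_cast h5
    rw [div_pow, div_le_iff₀ (pow_pos ha' n)]
    have h7 : (b : ℝ) ^ n ≤ (b : ℝ) ^ (n + 1) :=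
      pow_le_pow_right₀ (by exact_mod_cast hb) (Nat.le_succ n)
    linarith [mul_comm ((a : ℝ) ^ n) ((M + 1 : ℕ) : ℝ)]
  by_contra hcon
  set lam := Real.log ((b : ℝ) / a) with hlam
  have hq : 1 < (b : ℝ) / a := by
    rw [one_lt_div ha']
    exact_mod_cast hab
  have hlam0 : 0 < lam := Real.log_pos hq
  have hexp : Real.exp lam = (b : ℝ) / a := Real.exp_log (by positivity)
  unfold Exponential at hcon
  push Not at hcon
  obtain ⟨r, hr⟩ := hcon (lam / (2 * C)) (by positivity)
  have hr0 : r ≠ 0 := by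
    rintro rfl
    rw [growth_eq, pow_zero, ← Set.singleton_one, Set.ncard_singleton] at hr
    simp at hr
  have h1 := growth_mul_le S r (3 * C)
  have h2 := hlow (3 * r - 1)
  have h3 : C * (3 * r - 1 + 1) = r * (3 * C) := by
    have : 3 * r - 1 + 1 = 3 * r := by omega
    rw [this]; ring
  rw [h3] at h2
  have h4 : ((growth S (r * (3 * C)) : ℕ) : ℝ) ≤ (growth S r : ℝ) ^ (3 * C) := by exact_mod_cast h1
  have h5 : (growth S r : ℝ) ^ (3 * C) ≤ (Real.exp (lam / (2 * C) * r)) ^ (3 * C) :=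
    pow_le_pow_left₀ (Nat.cast_nonneg _) hr.le _
  rw [← Real.exp_nat_mul] at h5
  rw [← hexp, ← Real.exp_nat_mul] at h2
  have h6 := Real.exp_le_exp.1 (h2.trans (h4.trans h5))
  have h7 : (((3 * r - 1 : ℕ) : ℕ) : ℝ) = 3 * r - 1 := by
    rw [Nat.cast_sub (by omega)]
    push_cast
    ring
  have h8 : ((3 * C : ℕ) : ℝ) * (lam / (2 * C) * r) = 3 / 2 * (lam * r) := by
    push_cast
    field_simp
  rw [h7, h8] at h6
  have hr1 : (1 : ℝ) ≤ r := by exact_mod_cast Nat.one_le_iff_ne_zero.2 hr0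
  nlinarith [mul_le_mul_of_nonneg_left hr1 hlam0.le]

end Pool.Agent.T6.H22.Mon
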