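import Pool.Agent.T6.H22.Mon3

/-!
# Groups with finitely many conjugacy classes: tower distortion
-/

set_option autoImplicit false

open scoped Pointwise

namespace Pool.Agent.T6.H22.Tow

open Subgroup Pool.Agent.T6.H22.Mon

universe u v

/-- the tower `2 ^ 2 ^ ... ^ 2` of height `n` -/
def tower : ℕ → ℕ
  | 0 => 1
  | n + 1 => 2 ^ tower n

theorem pow_le_tower (n : ℕ) : 2 ^ n ≤ tower n := by
  induction n with
  | zero => simp [tower]
  | succ n ih =>
    change 2 ^ (n + 1) ≤ 2 ^ tower n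
    refine Nat.pow_le_pow_right (by norm_num) ?_
    have h1 : n < 2 ^ n := Nat.lt_two_pow_self
    omega

theorem tower_add (n k : ℕ) : tower (n + k) = (fun y : ℕ => 2 ^ y)^[k] (tower n) := by
  induction k with
  | zero => rfl
  | succ k ih =>
    rw [Function.iterate_succ_apply', ← ih]
    rfl

theorem iter_mono (k : ℕ) : StrictMono ((fun y : ℕ => 2 ^ y)^[k]) := by
  have h : StrictMono (fun y : ℕ => 2 ^ y) := fun a b hab => Nat.pow_lt_pow_right (by norm_num) hab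
  exact h.iterate k

theorem two_mul_le (m : ℕ) (hm : 1 ≤ m) : 2 * m ≤ 2 ^ m := by
  induction m, hm using Nat.le_induction with
  | base => norm_num
  | succ j hj ih =>
    rw [pow_succ]
    omega

/-- the tower exceeds all iterated exponentials of exponentials -/
theorem exists_tower (k A : ℕ) : ∃ n, (fun y : ℕ => 2 ^ y)^[k] (A * 2 ^ n) < tower n := by
  obtain ⟨m, hm⟩ : ∃ m, m = A + k + 1 := ⟨_, rfl⟩
  refine ⟨m + 1 + k, ?_⟩
  rw [tower_add]
  apply iter_mono
  change A * 2 ^ (m + 1 + k) < 2 ^ tower m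
  have h1 : A < 2 ^ A := Nat.lt_two_pow_self
  have h2 : A * 2 ^ (m + 1 + k) < 2 ^ A * 2 ^ (m + 1 + k) :=
    Nat.mul_lt_mul_of_pos_right h1 (by positivity)
  rw [← pow_add] at h2
  refine h2.trans_le (Nat.pow_le_pow_right (by norm_num) ?_)
  have h3 := pow_le_tower m
  have h4 := two_mul_le m (by omega)
  omega

variable {G : Type u} [Group G]

/-- the conjugacy classes of the elements of infinite order -/
def InfClasses (G : Type u) [Group G] : Set (ConjClasses G) :=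
  {c : ConjClasses G | ∃ g : G, ¬ IsOfFinOrder g ∧ ConjClasses.mk g = c}

/-- Only finitely many conjugacy classes of elements of infinite order. -/
def FinInf (G : Type u) [Group G] : Prop := (InfClasses G).Finite

theorem infinite_pow {g : G} (hg : ¬ IsOfFinOrder g) {n : ℕ} (hn : 0 < n) :
    ¬ IsOfFinOrder (g ^ n) := by
  rw [isOfFinOrder_pow]
  push Not
  exact ⟨hg, by omega⟩

theorem infinite_conj {g x : G} (hg : ¬ IsOfFinOrder g) : ¬ IsOfFinOrder (x * g * x⁻¹) := by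
  intro h
  apply hg
  rw [isOfFinOrder_iff_pow_eq_one] at h ⊢
  obtain ⟨n, hn, h⟩ := h
  refine ⟨n, hn, ?_⟩
  rw [conj_pow] at h
  exact conj_eq_one_iff.1 h

/-- Among the powers `g ^ (2 ^ i)` two are conjugate. -/
theorem exists_rel (hfin : FinInf G) {g : G} (hg : ¬ IsOfFinOrder g) :
    ∃ (i b : ℕ) (t : G), 2 ≤ b ∧ t * g ^ 2 ^ i * t⁻¹ = (g ^ 2 ^ i) ^ b ∧ ¬ IsOfFinOrder t := by
  have hinf : ∀ i : ℕ, ¬ IsOfFinOrder (g ^ 2 ^ i) := fun i => infinite_pow hg (by positivity)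
  obtain ⟨i, -, j, -, hij, h⟩ : ∃ i ∈ (Set.univ : Set ℕ), ∃ j ∈ (Set.univ : Set ℕ), i ≠ j ∧
      ConjClasses.mk (g ^ 2 ^ i) = ConjClasses.mk (g ^ 2 ^ j) :=
    Set.infinite_univ.exists_ne_map_eq_of_mapsTo (t := InfClasses G)
      (f := fun i : ℕ => ConjClasses.mk (g ^ 2 ^ i)) (fun i _ => ⟨_, hinf i, rfl⟩) hfin
  wlog hlt : i < j generalizing i j
  · exact this j i hij.symm h.symm (by omega)
  rw [ConjClasses.mk_eq_mk_iff_isConj, isConj_iff] at h
  obtain ⟨t, ht⟩ := h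
  have hb : (g ^ 2 ^ i) ^ 2 ^ (j - i) = g ^ 2 ^ j := by
    rw [← pow_mul, ← pow_add]
    congr 2
    omega
  have h2 : 2 ≤ 2 ^ (j - i) := by
    calc 2 = 2 ^ 1 := by norm_num
      _ ≤ 2 ^ (j - i) := Nat.pow_le_pow_right (by norm_num) (by omega)
  refine ⟨i, 2 ^ (j - i), t, h2, by rw [ht, hb], ?_⟩
  intro htf
  rw [isOfFinOrder_iff_pow_eq_one] at htf
  obtain ⟨r, hr, htr⟩ := htf
  obtain ⟨x, hx⟩ : ∃ x, x = g ^ 2 ^ i := ⟨_, rfl⟩
  obtain ⟨b, hbb⟩ : ∃ b, b = 2 ^ (j - i) := ⟨_, rfl⟩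
  have hrel : t * x * t⁻¹ = x ^ b := by rw [hx, hbb, ht, hb]
  have hpow : ∀ M : ℕ, t ^ M * x * (t ^ M)⁻¹ = x ^ b ^ M := by
    intro M
    induction M with
    | zero => simp
    | succ M ih =>
      have : t ^ (M + 1) * x * (t ^ (M + 1))⁻¹ = t * (t ^ M * x * (t ^ M)⁻¹) * t⁻¹ := by
        rw [pow_succ']; group
      rw [this, ih, ← conj_pow, hrel, ← pow_mul, pow_succ']
  have h3 := hpow r
  rw [htr] at h3
  simp only [one_mul, inv_one, mul_one] at h3
  have hxinf : ¬ IsOfFinOrder x := by rw [hx]; exact hinf i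
  apply hxinf
  rw [isOfFinOrder_iff_pow_eq_one]
  have hb2 : 2 ≤ b := by rw [hbb]; exact h2
  have hlt' : 1 < b ^ r := Nat.one_lt_pow (by omega) (by omega)
  refine ⟨b ^ r - 1, by omega, ?_⟩
  have h4 : x ^ (b ^ r - 1) * x = x := by
    rw [← pow_succ, show b ^ r - 1 + 1 = b ^ r by omega, ← h3]
  exact mul_eq_right.1 h4

theorem conj_tower {t x : G} {b : ℕ} (hrel : t * x * t⁻¹ = x ^ b) (M : ℕ) :
    t ^ M * x * (t ^ M)⁻¹ = x ^ b ^ M := by
  induction M with
  | zero => simp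
  | succ M ih =>
    have : t ^ (M + 1) * x * (t ^ (M + 1))⁻¹ = t * (t ^ M * x * (t ^ M)⁻¹) * t⁻¹ := by
      rw [pow_succ']; group
    rw [this, ih, ← conj_pow, hrel, ← pow_mul, pow_succ']

/-- every class of elements of infinite order contains elements with large powers of length at
most `L` -/
def Step (S : Finset G) (n L : ℕ) : Prop :=
  ∀ c : ConjClasses G, ¬ IsOfFinOrder (Quotient.out c) →
    ∃ N, tower n ≤ N ∧ (Quotient.out c) ^ N ∈ gen S ^ L

theorem mk_out (c : ConjClasses G) : ConjClasses.mk (Quotient.out c) = c := Quotient.out_eq c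

theorem exists_out (g : G) : ∃ u : G, g = u * Quotient.out (ConjClasses.mk g) * u⁻¹ := by
  have h : ConjClasses.mk (Quotient.out (ConjClasses.mk g)) = ConjClasses.mk g := mk_out _
  rw [ConjClasses.mk_eq_mk_iff_isConj, isConj_iff] at h
  obtain ⟨u, hu⟩ := h
  exact ⟨u, hu.symm⟩

theorem step_one {S : Finset G} (hS : closure (S : Set G) = ⊤) (hfin : FinInf G)
    (c : ConjClasses G) (hc : ¬ IsOfFinOrder (Quotient.out c)) :
    ∃ A, ∀ n L, Step S n L →
      ∃ N, tower (n + 1) ≤ N ∧ (Quotient.out c) ^ N ∈ gen S ^ (2 * L + A) := by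
  obtain ⟨i, b, t, hb, hrel, htinf⟩ := exists_rel hfin hc
  obtain ⟨u, hu⟩ := exists_out t
  have ht' : ¬ IsOfFinOrder (Quotient.out (ConjClasses.mk t)) := by
    intro h
    apply htinf
    rw [hu, isOfFinOrder_iff_pow_eq_one]
    rw [isOfFinOrder_iff_pow_eq_one] at h
    obtain ⟨n, hn, h⟩ := h
    exact ⟨n, hn, by rw [conj_pow, h, mul_one, mul_inv_cancel]⟩
  obtain ⟨a, ha⟩ := exists_mem_pow S hS u
  obtain ⟨d, hd⟩ := exists_mem_pow S hS ((Quotient.out c) ^ 2 ^ i)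
  refine ⟨4 * a + d, fun n L hst => ?_⟩
  obtain ⟨N, hN, hNm⟩ := hst (ConjClasses.mk t) ht'
  have h1 : t ^ N ∈ gen S ^ (a + L + a) := by
    have h2 : t ^ N = u * Quotient.out (ConjClasses.mk t) ^ N * u⁻¹ := by
      conv_lhs => rw [hu]
      rw [conj_pow]
    rw [h2]
    exact mul_mem_pow (mul_mem_pow ha hNm) (inv_mem_pow ha)
  have h3 := conj_tower hrel N
  have h4 : ((Quotient.out c) ^ 2 ^ i) ^ b ^ N ∈ gen S ^ (a + L + a + d + (a + L + a)) := by
    rw [← h3]
    exact mul_mem_pow (mul_mem_pow h1 hd) (inv_mem_pow h1)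
  refine ⟨2 ^ i * b ^ N, ?_, ?_⟩
  · calc tower (n + 1) = 2 ^ tower n := rfl
      _ ≤ 2 ^ N := Nat.pow_le_pow_right (by norm_num) hN
      _ ≤ b ^ N := Nat.pow_le_pow_left hb N
      _ ≤ 2 ^ i * b ^ N := Nat.le_mul_of_pos_left _ (by positivity)
  · rw [pow_mul]
    have h5 : a + L + a + d + (a + L + a) = 2 * L + (4 * a + d) := by ring
    rwa [h5] at h4

theorem step_all {S : Finset G} (hS : closure (S : Set G) = ⊤) (hfin : FinInf G) :
    ∃ A, ∀ n L, Step S n L → Step S (n + 1) (2 * L + A) := by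
  classical
  have h1 : ∀ c : ConjClasses G, ∃ A, ¬ IsOfFinOrder (Quotient.out c) → ∀ n L, Step S n L →
      ∃ N, tower (n + 1) ≤ N ∧ (Quotient.out c) ^ N ∈ gen S ^ (2 * L + A) := by
    intro c
    by_cases hc : IsOfFinOrder (Quotient.out c)
    · exact ⟨0, fun h => absurd hc h⟩
    · obtain ⟨A, hA⟩ := step_one hS hfin c hc
      exact ⟨A, fun _ => hA⟩
  choose A hA using h1
  have hfin' : (InfClasses G).Finite := hfin
  refine ⟨∑ c ∈ hfin'.toFinset, A c, fun n L hst c hc => ?_⟩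
  obtain ⟨N, hN, hm⟩ := hA c hc n L hst
  refine ⟨N, hN, pow_gen_mono S ?_ hm⟩
  have hmem : c ∈ hfin'.toFinset := by
    rw [Set.Finite.mem_toFinset]
    exact ⟨_, hc, mk_out c⟩
  have := Finset.single_le_sum (f := A) (fun _ _ => Nat.zero_le _) hmem
  omega

theorem step_zero {S : Finset G} (hS : closure (S : Set G) = ⊤) (hfin : FinInf G) :
    ∃ L, Step S 0 L := by
  classical
  have h1 : ∀ c : ConjClasses G, ∃ A, (Quotient.out c) ∈ gen S ^ A := fun c =>
    exists_mem_pow S hS _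
  choose A hA using h1
  have hfin' : (InfClasses G).Finite := hfin
  refine ⟨∑ c ∈ hfin'.toFinset, A c, fun c hc => ⟨1, le_refl _, ?_⟩⟩
  rw [pow_one]
  refine pow_gen_mono S ?_ (hA c)
  have hmem : c ∈ hfin'.toFinset := by
    rw [Set.Finite.mem_toFinset]
    exact ⟨_, hc, mk_out c⟩
  exact Finset.single_le_sum (f := A) (fun _ _ => Nat.zero_le _) hmem

theorem step_exp {S : Finset G} (hS : closure (S : Set G) = ⊤) (hfin : FinInf G) :
    ∃ C, ∀ n, Step S n (C * 2 ^ n) := by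
  obtain ⟨L, hL⟩ := step_zero hS hfin
  obtain ⟨A, hA⟩ := step_all hS hfin
  have h1 : ∀ n, Step S n ((L + A) * 2 ^ n - A) := by
    intro n
    induction n with
    | zero => simpa using hL
    | succ n ih =>
      have h2 := hA n _ ih
      have h3 : A ≤ (L + A) * 2 ^ n := by
        calc A ≤ L + A := Nat.le_add_left _ _
          _ ≤ (L + A) * 2 ^ n := Nat.le_mul_of_pos_right _ (by positivity)
      have h4 : 2 * ((L + A) * 2 ^ n - A) + A = (L + A) * 2 ^ (n + 1) - A := by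
        rw [pow_succ, ← mul_assoc]
        omega
      rwa [h4] at h2
  refine ⟨L + A, fun n c hc => ?_⟩
  obtain ⟨N, hN, h⟩ := h1 n c hc
  exact ⟨N, hN, pow_gen_mono S (Nat.sub_le _ _) h⟩

/-- **Tower distortion.** -/
theorem distortion {S : Finset G} (hS : closure (S : Set G) = ⊤) (hfin : FinInf G) :
    ∃ C, ∀ g : G, ¬ IsOfFinOrder g → ∃ D, ∀ n, ∃ N, tower n ≤ N ∧ g ^ N ∈ gen S ^ (C * 2 ^ n + D) := by
  obtain ⟨C, hC⟩ := step_exp hS hfin
  refine ⟨C, fun g hg => ?_⟩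
  obtain ⟨u, hu⟩ := exists_out g
  have hg' : ¬ IsOfFinOrder (Quotient.out (ConjClasses.mk g)) := by
    intro h
    apply hg
    rw [hu, isOfFinOrder_iff_pow_eq_one]
    rw [isOfFinOrder_iff_pow_eq_one] at h
    obtain ⟨n, hn, h⟩ := h
    exact ⟨n, hn, by rw [conj_pow, h, mul_one, mul_inv_cancel]⟩
  obtain ⟨a, ha⟩ := exists_mem_pow S hS u
  refine ⟨2 * a, fun n => ?_⟩
  obtain ⟨N, hN, h⟩ := hC n _ hg'
  refine ⟨N, hN, ?_⟩
  have h2 : g ^ N = u * Quotient.out (ConjClasses.mk g) ^ N * u⁻¹ := by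
    conv_lhs => rw [hu]
    rw [conj_pow]
  rw [h2]
  have h3 := mul_mem_pow (mul_mem_pow ha h) (inv_mem_pow ha)
  have h4 : a + C * 2 ^ n + a = C * 2 ^ n + 2 * a := by ring
  rwa [h4] at h3

/-- at most `k`-fold exponential distortion -/
def Elementary {H : Type v} [Group H] (T : Finset H) (h : H) : Prop :=
  ∃ k c : ℕ, ∀ N m : ℕ, h ^ N ∈ gen T ^ m → N ≤ (fun y : ℕ => 2 ^ y)^[k] (c * (m + 1))

theorem map_mem {H : Type v} [Group H] {S : Finset G} {T : Finset H} (f : G →* H) {a : ℕ}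
    (ha : ∀ s ∈ S, f s ∈ gen T ^ a) {m : ℕ} {g : G} (hg : g ∈ gen S ^ m) :
    f g ∈ gen T ^ (a * m) := by
  induction m generalizing g with
  | zero =>
    rw [pow_zero] at hg
    rw [Set.mem_one.1 hg, map_one, mul_zero, pow_zero]
    exact Set.mem_one.2 rfl
  | succ m ih =>
    rw [pow_succ] at hg
    obtain ⟨x, hx, y, hy, rfl⟩ := Set.mem_mul.1 hg
    rw [map_mul, mul_add, mul_one]
    refine mul_mem_pow (ih hx) ?_
    rcases hy with (hy | hy) | hy
    · exact ha y hy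
    · have h1 := inv_mem_pow (ha _ hy)
      rwa [map_inv, inv_inv] at h1
    · rw [Set.mem_singleton_iff.1 hy, map_one]
      exact pow_gen_mono T (Nat.zero_le a) (by rw [pow_zero]; exact Set.mem_one.2 rfl)

theorem not_elementary {H : Type v} [Group H] {S : Finset G} (hS : closure (S : Set G) = ⊤)
    (hfin : FinInf G) {T : Finset H} (f : G →* H) (hT : ∀ g, f g ∈ closure (T : Set H)) {g : G}
    (hg : ¬ IsOfFinOrder (f g)) : ¬ Elementary T (f g) := by
  rintro ⟨k, c, hkc⟩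
  obtain ⟨a, ha⟩ : ∃ a, ∀ s ∈ S, f s ∈ gen T ^ a := by
    classical
    have h1 : ∀ s : G, ∃ a, f s ∈ gen T ^ a := by
      intro s
      have hx := hT s
      generalize f s = x at hx
      induction hx using Subgroup.closure_induction with
      | mem x hx => exact ⟨1, by rw [pow_one]; exact Or.inl (Or.inl hx)⟩
      | one => exact ⟨0, by rw [pow_zero]; rfl⟩
      | mul x y _ _ ihx ihy =>
        obtain ⟨m, hm⟩ := ihx
        obtain ⟨n, hn⟩ := ihy
        exact ⟨m + n, mul_mem_pow hm hn⟩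
      | inv x _ ih =>
        obtain ⟨m, hm⟩ := ih
        exact ⟨m, inv_mem_pow hm⟩
    choose a ha using h1
    refine ⟨∑ s ∈ S, a s, fun s hs => pow_gen_mono T ?_ (ha s)⟩
    exact Finset.single_le_sum (f := a) (fun _ _ => Nat.zero_le _) hs
  obtain ⟨C, hC⟩ := distortion hS hfin
  have hginf : ¬ IsOfFinOrder g := fun h => hg (f.isOfFinOrder h)
  obtain ⟨D, hD⟩ := hC g hginf
  obtain ⟨n, hn⟩ := exists_tower k (c * (a * (C + D) + 1))
  obtain ⟨N, hN, hm⟩ := hD n
  have h1 := map_mem f ha hm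
  rw [map_pow] at h1
  have h2 := hkc N _ h1
  have h3 : c * (a * (C * 2 ^ n + D) + 1) ≤ c * (a * (C + D) + 1) * 2 ^ n := by
    have h4 : 1 ≤ 2 ^ n := Nat.one_le_two_pow
    rw [mul_assoc]
    refine Nat.mul_le_mul_left _ ?_
    have h5 : C * 2 ^ n + D ≤ (C + D) * 2 ^ n := by
      rw [add_mul]
      exact Nat.add_le_add_left (Nat.le_mul_of_pos_right _ (by positivity)) _
    calc a * (C * 2 ^ n + D) + 1 ≤ a * ((C + D) * 2 ^ n) + 2 ^ n :=
          Nat.add_le_add (Nat.mul_le_mul_left _ h5) h4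
      _ = (a * (C + D) + 1) * 2 ^ n := by ring
  have h6 := (iter_mono k).monotone h3
  have h7 := h2.trans h6
  omega

end Pool.Agent.T6.H22.Tow
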